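import Pool.Agent.COS.Defs

/-!
# Cosets of matrix groups over `Z / p^k` and parity-P (MP_0fc649_lc): definitions

Definitions used in the statement of the theorem.
-/

set_option autoImplicit false

namespace Pool.Agent.COSB

open Pool.Agent.PAR Pool.Agent.COS

/-- The group of the invertible `n × n` matrices over `Z / p^k`. -/
abbrev Gp (p k n : ℕ) : Type := Matrix.GeneralLinearGroup (Fin n) (ZMod (p ^ k))

/-- The number of the binary digits of `p - 1`. -/
abbrev db (p : ℕ) : ℕ := Nat.size (p - 1)

/-- The word of an element of `Z / p^k`: its `k` digits in base `p`, each of them written with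
`db p` binary digits; in both cases the least significant digit comes first. -/
def cod (p k : ℕ) (a : ZMod (p ^ k)) : Word :=
  (List.range k).flatMap fun t => (List.range (db p)).map fun s =>
    (a.val / p ^ t % p).testBit s

/-- The word of an `n × n` matrix over `Z / p^k`: the words of its entries, row by row. -/
def encP (p k n : ℕ) (A : Matrix (Fin n) (Fin n) (ZMod (p ^ k))) : Word :=
  (List.finRange (n * n)).flatMap fun r => cod p k (A r.divNat r.modNat)

/-- The invertible matrices `A` of size `d |x|` over `Z / p^(k |x|)` such that `V` accepts `x`
together with the word of `A`. -/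
def modSols (V : Word × Word → Bool) (p : ℕ) (d k : Polynomial ℕ) (x : Word) :
    Set (Gp p (k.eval x.length) (d.eval x.length)) :=
  {A | V (x, encP p (k.eval x.length) (d.eval x.length) A.1) = true}

end Pool.Agent.COSB
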