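import Pool.Agent.COS.Stmts
import Pool.Agent.LAT.Defs
import Pool.Agent.Helper75_LAT.Norm

/-!
# Squad COSB (MP_0fc649_lc): cosets of matrix groups over `Z/2^k`, definitions

`Gr n`, `enc`, `Heap`, `IsUni`, `Red`, `Fr`, `IsFrame`, `Homog`, `blW`, `frameW`, `uniW`, `redW`, `gt` are
the definitions of the squad COS (`Pool/Agent/COS/Defs.lean`, `Stmts.lean`).
-/

set_option autoImplicit false

namespace Pool.Agent.COSB

open Pool.Agent.PAR Pool.Agent.COS

/-- The number of the words `c` of length `l` with `P c` is odd. -/
def Od (l : ℕ) (P : Word → Prop) : Prop := Odd {c : Word | c.length = l ∧ P c}.ncard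

/-- The group of the invertible `n × n` matrices over `Z/2^k`. -/
abbrev G2 (n k : ℕ) : Type := Matrix.GeneralLinearGroup (Fin n) (ZMod (2 ^ k))

/-- The word of a matrix over `Z/2^k`: the entries row by row, every entry with `k` binary digits,
the lowest digit first. -/
def enc2 (k : ℕ) {n : ℕ} (A : Matrix (Fin n) (Fin n) (ZMod (2 ^ k))) : Word :=
  List.ofFn fun t : Fin (n * n * k) => (A t.divNat.divNat t.divNat.modNat).val.testBit t.modNat

/-- reduction modulo two -/
def rd {n k : ℕ} (A : Matrix (Fin n) (Fin n) (ZMod (2 ^ k))) : Matrix (Fin n) (Fin n) (ZMod 2) :=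
  A.map fun z => (z.val : ZMod 2)

/-- the lift of a matrix over `F_2` with the entries `0`, `1` -/
def up (k : ℕ) {n : ℕ} (a : Matrix (Fin n) (Fin n) (ZMod 2)) :
    Matrix (Fin n) (Fin n) (ZMod (2 ^ k)) := a.map fun z => (z.val : ZMod (2 ^ k))

/-- the coordinates of a matrix over `Z/2^k`: the lowest digits of all entries row by row, then the
next digits of all entries, and so on -/
def crd (k : ℕ) {n : ℕ} (A : Matrix (Fin n) (Fin n) (ZMod (2 ^ k))) : Fin (k * (n * n)) → Bool :=
  fun t => (A t.modNat.divNat t.modNat.modNat).val.testBit t.divNat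

/-- The coordinates of the `u`, unitriangular modulo two, with `A' u A⁻¹ ∈ W`, where `A`, `A'` are the
lifts of `a`, `a'`. -/
def Sec2 (k : ℕ) {n : ℕ} (W : Set (G2 n k)) (a a' : Gr n) : Set (Fin (k * (n * n)) → Bool) :=
  {y | ∃ u A A' : G2 n k, IsUni (rd u.1) ∧ A.1 = up k a.1 ∧ A'.1 = up k a'.1 ∧
    A' * u * A⁻¹ ∈ W ∧ crd k u.1 = y}

/-! ### Words -/

/-- the entry `(i, j)` of the matrix written in the word `w` as in `enc2` -/
def gE (n k : ℕ) (w : Word) (i j : ℕ) : ℕ := LATM.nval ((w.drop ((i * n + j) * k)).take k)

/-- the entry `(i, j)` of the matrix with the coordinates `w`, as in `crd` -/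
def gC (n k : ℕ) (w : Word) (i j : ℕ) : ℕ :=
  LATM.nval ((List.range k).map fun b => w.getD (b * (n * n) + (i * n + j)) false)

/-- the entry `(i, j)` of the matrix over `F_2` written in the word `w`, as a number -/
def gO (n : ℕ) (w : Word) (i j : ℕ) : ℕ := if gt n w i j = true then 1 else 0

/-- the entry `(i, j)` of the product -/
def mm (n : ℕ) (e f : ℕ → ℕ → ℕ) (i j : ℕ) : ℕ := ∑ l ∈ Finset.range n, e i l * f l j

/-- the word of the matrix with the entries `e i j` modulo `2^k` -/
def wE (n k : ℕ) (e : ℕ → ℕ → ℕ) : Word :=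
  (List.range (n * n * k)).map fun t => (e (t / k / n) (t / k % n)).testBit (t % k)

/-- the identity matrix -/
def dl (i j : ℕ) : ℕ := if i = j then 1 else 0

/-- the length of the code of a reduced matrix and of the inverse of its lift -/
def hl (n k : ℕ) : ℕ := n * n + n * n * k

/-- `h` is the code of a reduced matrix (the first `n n` letters) and of the inverse of its lift -/
def half (n k : ℕ) (h : Word) : Bool :=
  redW n (h.take (n * n)) &&
    decide (wE n k (mm n (gO n (h.take (n * n))) (gE n k (h.drop (n * n)))) = wE n k dl)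

/-- `c` is a certificate for `a' u b`, and `u` is unitriangular modulo two -/
def gm (f : Word → Word → Bool) (n k : ℕ) (a' b u c : Word) : Bool :=
  uniW n u && f (wE n k (mm n (mm n (gO n a') (gC n k u)) (gE n k b))) c

/-- the length of the code of a frame -/
def fl (N : ℕ) : ℕ := 2 * N + 2 * (N * N)

/-- the length of the certificates of a frame -/
def cl (N l : ℕ) : ℕ := l + (N * l + N * l)

/-- `F` is the code of the data of a frame, `C` consists of certificates for its vectors -/
def frC (g : Word → Word → Bool) (N l : ℕ) (F C : Word) : Bool :=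
  frameW (fun _ => true) N (blW N F 0) (blW N F 1) (F.drop (2 * N)) (F.drop (2 * N + N * N)) &&
  g (blW N F 1) (C.take l) &&
  decide (∀ i < N, (if (blW N F 0).getD i false then
      g (blW N (F.drop (2 * N)) i) (blW l (C.drop l) i) &&
      g (blW N (F.drop (2 * N + N * N)) i) (blW l (C.drop (l + N * l)) i)
    else decide (blW l (C.drop l) i = List.replicate l false) &&
      decide (blW l (C.drop (l + N * l)) i = List.replicate l false)) = true)

/-- the length of the certificates -/
def LA (n k l : ℕ) : ℕ := hl n k + (hl n k + (fl (k * (n * n)) + cl (k * (n * n)) l))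

/-- The certificates: two reduced matrices `a`, `a'` with the inverses of their lifts, a frame of
`Sec2 W a a'`, certificates of the membership of its vectors. -/
def valA (f : Word → Word → Bool) (n k l : ℕ) (c : Word) : Bool :=
  half n k (c.take (hl n k)) &&
  (half n k ((c.drop (hl n k)).take (hl n k)) &&
    frC (gm f n k (((c.drop (hl n k)).take (hl n k)).take (n * n))
      ((c.take (hl n k)).drop (n * n))) (k * (n * n)) l
      (((c.drop (hl n k)).drop (hl n k)).take (fl (k * (n * n))))
      (((c.drop (hl n k)).drop (hl n k)).drop (fl (k * (n * n)))))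

/-- The set of the matrices over `Z/2^k` with an odd number of certificates. -/
def WS (n k l : ℕ) (f : Word → Word → Bool) : Set (G2 n k) :=
  {A | Od l (fun c => f (enc2 k A.1) c = true)}

end Pool.Agent.COSB
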