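import Pool.Agent.COSB.DefsT

/-!
# Cosets of matrix groups over finite fields and parity-P (MP_0fc649_lc): definitions
-/

set_option autoImplicit false

namespace Pool.Agent.COSB

open Pool.Agent.PAR Pool.Agent.COS

/-- The word of an `n × n` matrix over `E`, for a code `c` of the elements of `E`: the words of the
entries, row by row. -/
def encE {E : Type} (c : E → Word) {n : ℕ} (A : Matrix (Fin n) (Fin n) E) : Word :=
  (List.finRange (n * n)).flatMap fun r => c (A r.divNat r.modNat)

/-- The invertible matrices `A` of size `d |x|` over `E` such that `V` accepts `x` together with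
the word of `A`. -/
def fldSols {E : Type} [Field E] (c : E → Word) (V : Word × Word → Bool) (d : Polynomial ℕ)
    (x : Word) : Set (Matrix.GeneralLinearGroup (Fin (d.eval x.length)) E) :=
  {A | V (x, encE c A.1) = true}

/-- The word of an `n × n × n` tensor over `E`: the words of the entries in lexicographic order of
the indices. -/
def ecod {E : Type} (c : E → Word) {n : ℕ} (T : Fin n → Fin n → Fin n → E) : Word :=
  (List.finRange (n * n * n)).flatMap fun r => c (T r.divNat.divNat r.divNat.modNat r.modNat)

/-- The language of the pairs of isomorphic `n × n × n` tensors over `E`. -/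
def TensorIsoE {E : Type} [Field E] (c : E → Word) : Set Word :=
  {w | ∃ (n : ℕ) (T T' : Fin n → Fin n → Fin n → E), w = ecod c T ++ ecod c T' ∧ TIsoR T T'}

end Pool.Agent.COSB
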