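import Pool.Agent.COSB.Defs

/-!
# Lattice isomorphism and integer matrices (MP_0fc649_lc): definitions

Definitions used in the statement of the theorem.
-/

set_option autoImplicit false

namespace Pool.Agent.COSB

open Pool.Agent.PAR Pool.Agent.COS Matrix

/-- The word of an integer matrix: the entries row by row, each of them by its `w + 1` lowest binary
digits (two's complement), the lowest digit first. -/
def encZ (w : ℕ) {n : ℕ} (U : Matrix (Fin n) (Fin n) ℤ) : Word :=
  List.ofFn fun t : Fin (n * n * (w + 1)) =>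
    (U t.divNat.divNat t.divNat.modNat).testBit (t.modNat : ℕ)

/-- The integral quadratic form with the symmetric matrix `Q` is positive definite. -/
def PosF {n : ℕ} (Q : Matrix (Fin n) (Fin n) ℤ) : Prop :=
  Qᵀ = Q ∧ ∀ v : Fin n → ℤ, v ≠ 0 → 0 < v ⬝ᵥ (Q *ᵥ v)

/-- The lattices with the Gram matrices `Q` and `Q'` are isomorphic (isometric). -/
def IsoF {n : ℕ} (Q Q' : Matrix (Fin n) (Fin n) ℤ) : Prop :=
  ∃ U : Matrix.GeneralLinearGroup (Fin n) ℤ, U.1 * Q * U.1ᵀ = Q'

/-- The code of a pair of `n × n` integer matrices: the numbers `n` and `w` in unary, followed by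
the words of the two matrices, with `w + 1` binary digits for every entry. -/
def encL (n w : ℕ) (Q Q' : Matrix (Fin n) (Fin n) ℤ) : Word :=
  List.replicate n true ++ false :: (List.replicate w true ++ false :: (encZ w Q ++ encZ w Q'))

/-- The entries of the invertible integer matrix `U` and of its inverse lie between `-2 ^ w` and
`2 ^ w - 1`. -/
def RgU (w : ℕ) {n : ℕ} (U : Matrix.GeneralLinearGroup (Fin n) ℤ) : Prop :=
  ∀ i j, (-(2 : ℤ) ^ w ≤ U.1 i j ∧ U.1 i j < 2 ^ w) ∧
    (-(2 : ℤ) ^ w ≤ (U⁻¹).1 i j ∧ (U⁻¹).1 i j < 2 ^ w)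

/-- The elements `U` of `GL_n(ℤ)`, `n = d |x|`, with `RgU (w |x|) U`, such that `V` accepts `x`
together with the word of `U`. -/
def intSols (V : Word × Word → Bool) (d w : Polynomial ℕ) (x : Word) :
    Set (Matrix.GeneralLinearGroup (Fin (d.eval x.length)) ℤ) :=
  {U | RgU (w.eval x.length) U ∧ V (x, encZ (w.eval x.length) U.1) = true}

end Pool.Agent.COSB
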