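import Pool.Agent.COSB.Defs

/-!
# Tensor isomorphism over `Z / p` (MP_0fc649_lc): definitions
-/

set_option autoImplicit false

namespace Pool.Agent.COSB

open Pool.Agent.PAR Pool.Agent.COS

/-- Two `n × n × n` tensors over a commutative ring are isomorphic. -/
def TIsoR {R : Type} [CommRing R] {n : ℕ} (T T' : Fin n → Fin n → Fin n → R) : Prop :=
  ∃ A B C : Matrix.GeneralLinearGroup (Fin n) R, ∀ i j k : Fin n,
    ∑ a, ∑ b, ∑ c, A.1 i a * B.1 j b * C.1 k c * T a b c = T' i j k

/-- The word of an `n × n × n` tensor over `Z / p`: the entries in lexicographic order of the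
indices, each of them as a number below `p` with `db p` binary digits, the lowest digit first. -/
def tcod (p n : ℕ) (T : Fin n → Fin n → Fin n → ZMod p) : Word :=
  (List.finRange (n * n * n)).flatMap fun r => (List.range (db p)).map fun s =>
    (T r.divNat.divNat r.divNat.modNat r.modNat).val.testBit s

/-- The language of the pairs of isomorphic `n × n × n` tensors over `Z / p`. -/
def TensorIsoP (p : ℕ) : Set Word :=
  {w | ∃ (n : ℕ) (T T' : Fin n → Fin n → Fin n → ZMod p), w = tcod p n T ++ tcod p n T' ∧
    TIsoR T T'}

end Pool.Agent.COSB
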