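import Pool.Agent.COSB.Defs
import Pool.Agent.COS.Stmts
import Pool.Agent.Helper7_PAR.Mach

/-!
# Squad COSB (MP_0fc649_lc), part 2: odd primes.  Statements

THEOREM.  Let `p` be a prime, `d`, `k` polynomials, `W_x` the set of the invertible matrices `A` of
size `d |x|` over `Z / p^(k |x|)` with `V (x, A)`, closed under `a b⁻¹ c`.  Then the set of the `x`
with `W_x` nonempty is in parity-P.  (Part 1: `p = 2`; lattice isomorphism.)

IDEA of part 2 (`p` odd).  Let `F` be a finite field with `q = |F| ≡ 1` modulo `4` and with a ring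
homomorphism `η : Z / p^k → F`.  The index of the monomial matrices in `GL_n (F)` is odd, the
cosets have unique canonical representatives `a` (first nonzero entry of every column `1`, columns
strictly increasing).  So the number of the pairs `(a, a')` such that `a'⁻¹ η(w) a` is monomial for
some `w ∈ W` is odd iff `W` is nonempty.  The monomial matrices act on the `n q` points `(j, z)`,
`z ∈ F`, by permutations, so `a'⁻¹ η(W) a`, intersected with the monomial matrices, is a heap in
`GL_(n q) (F_2)`, to which the theorem for `F_2` in the form of a parity predicate (`OneStmt`,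
proved in the row ONE) applies: an element `A` of this heap has an odd number of preimages in `W`.

RULES.  Deliver every row in `Pool/Agent/HelperNN_COSB/XXX.lean`, `import
Pool.Agent.COSB.StmtsB`, namespace `Pool.Agent.COSB.HNN`, `theorem xxx (h1 : UseStmt) .. :
XxxStmt`.
-/

set_option autoImplicit false

namespace Pool.Agent.COSB

open Turing Computability Pool.Agent.UT.Num Pool.Agent.H2XG Pool.Agent.PAR Pool.Agent.COS


/-! ## The interface of part 1 -/

/-- `G` is computed in polynomial time in every context of the calculus `FP`. -/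
def U5 (G : Word → Word → Word → Word → Word → Bool) : Prop :=
  ∀ (m : ℕ) (X Y Z A C : (Fin m → List K) → Word), FPW m X → FPW m Y → FPW m Z → FPW m A →
    FPW m C → FPB m (fun ρ => G (X ρ) (Y ρ) (Z ρ) (A ρ) (C ρ))

/-- the invertible matrices `A` over `F_2` for which the number of the words `c` of length `l` with
`f A c` is odd -/
def parSet (f : Word → Word → Bool) (n l : ℕ) : Set (Gr n) :=
  {A | Odd {c : Word | c.length = l ∧ f (enc A.1) c = true}.ncard}

/-- **ONE** (medium; adapt the rows SUM, WRD, MCH, MAI of squad COS).  The theorem for `F_2` with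
a parity predicate: certificates `val f n l` for every predicate `f` of a matrix word and a word
`c`; if `parSet f n l` is closed under `a b⁻¹ c`, the number of the certificates is odd iff it is
nonempty; the certificates are checked in polynomial time if `f` is.

Proof.  `val f n l C`: `C = C₁ ++ C₂` where `C₁` is a certificate of `Pool.Agent.COS.val` (words
`a, b, a', b', Q, y` of length `N = n n` and `Z, Z'` of length `N N`) with the predicate
`V (x, u)` in `inW` left out, and `C₂` consists of `2 N + 1` blocks of length `l`: the block `c_y`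
with `f (a' y b) c_y`, for `i < N` with `Q_i` the blocks `c_i`, `c'_i` with `f (a' Z_i b) c_i`,
`f (a' Z'_i b) c'_i`; for `i < N` without `Q_i` the blocks `c_i`, `c'_i` are zero.  For fixed `C₁`
the number of the `C₂` is the product of the numbers of the words `c` for the `2 N + 1` blocks
(words of length `(2 N + 1) l` are families of `2 N + 1` words of length `l`), and it is odd iff
`a' y b`, and `a' Z_i b`, `a' Z'_i b` for `i` in `Q` are in `parSet f n l`.  So modulo `2` the
number of the `C` is the number of the tuples `Tup (parSet f n l)`: rows WRD and SUM of COS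
(`Helper86_COS`, `Helper49_COS`).  Polynomial time: as in `Helper50_COS/MCH.lean`, with `G` in
place of `FPB.call2`. -/
def OneStmt : Prop :=
  ∃ (val : (Word → Word → Bool) → ℕ → ℕ → Word → Bool) (len : ℕ → ℕ → ℕ),
    (∀ f n l C, val f n l C = true → C.length = len n l) ∧
    (∀ f n l, Heap (parSet f n l) →
      (Odd {C : Word | val f n l C = true}.ncard ↔ (parSet f n l).Nonempty)) ∧
    (∀ G, U5 G → ∀ (m : ℕ) (X Y Z C : (Fin m → List K) → Word) (n l : (Fin m → List K) → ℕ),
      FPW m X → FPW m Y → FPW m Z → FPW m C → FPN m n → FPN m l →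
      FPB m (fun ρ => val (G (X ρ) (Y ρ) (Z ρ)) (n ρ) (l ρ) (C ρ))) ∧
    (∀ m (n l : (Fin m → List K) → ℕ), FPN m n → FPN m l → FPN m (fun ρ => len (n ρ) (l ρ))) ∧
    ∀ n l : Polynomial ℕ, ∃ e : Polynomial ℕ, ∀ t, len (n.eval t) (l.eval t) ≤ e.eval t

/-! ## Monomial matrices -/

section field

variable {F : Type} [Field F]

/-- monomial matrices -/
def IsMon {n : ℕ} (M : Matrix (Fin n) (Fin n) F) : Prop :=
  ∃ (π : Equiv.Perm (Fin n)) (ζ : Fin n → Fˣ), ∀ i j, M i j = if i = π j then (ζ j : F) else 0

/-- the first nonzero entry of every column is `1` -/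
def Nrm {n : ℕ} (A : Matrix (Fin n) (Fin n) F) : Prop :=
  ∀ i j, (∀ i' < i, A i' j = 0) → A i j ≠ 0 → A i j = 1

variable [Fintype F]

/-- the numbering of the elements of `F` -/
noncomputable def eF (F : Type) [Fintype F] : F ≃ Fin (Fintype.card F) := Fintype.equivFin F

/-- the column `j` is smaller than the column `j'` (lexicographically) -/
def LtC {n : ℕ} (A : Matrix (Fin n) (Fin n) F) (j j' : Fin n) : Prop :=
  ∃ i, (∀ i' < i, A i' j = A i' j') ∧ eF F (A i j) < eF F (A i j')

/-- canonical matrices -/
def Cnn {n : ℕ} (A : Matrix (Fin n) (Fin n) F) : Prop :=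
  Nrm A ∧ ∀ j j', j < j' → LtC A j j'

end field

/-- **MNG** (easy-medium).  The monomial matrices form a subgroup of `GL_n (F)` with
`n! (q - 1)^n` elements.

Proof.  For `M = (π, ζ)`: `M e_j = ζ_j e_(π j)`.  Products: `(π, ζ) (π', ζ') = (π π', j ↦
ζ_(π' j) ζ'_j)`; a subset of a finite group which contains `1` and is closed under products is a
subgroup (or write the inverse `(π⁻¹, j ↦ (ζ_(π⁻¹ j))⁻¹)`).  The map `(π, ζ) ↦ M` is a bijection
onto the monomial matrices (the matrix is invertible as it has an inverse of the same form; `π j`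
is the index of the only nonzero entry of the column `j`), `|Perm (Fin n)| = n!`,
`|Fˣ| = q - 1` (`Fintype.card_units`). -/
def MngStmt : Prop := ∀ (F : Type) [Field F] [Fintype F] [DecidableEq F] (n : ℕ),
  ∃ U : Subgroup (Matrix.GeneralLinearGroup (Fin n) F), (∀ u, u ∈ U ↔ IsMon u.1) ∧
    Nat.card U = n.factorial * (Fintype.card F - 1) ^ n

/-- **LTE** (easy-medium).  The odd index.

Proof.  `q > 1`.  `∏ i : Fin n, (q^n - q^i) = ∏ i, q^i * ∏_{j=1..n} (q^j - 1)`, the first factor is
odd.  `v_2 (q^j - 1) = v_2 (q - 1) + v_2 j` for `j ≥ 1` (`Int.two_pow_sub_pow'` with `x = q`,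
`y = 1`, `4 ∣ q - 1`), so the `2`-adic valuation of the product is `n v_2 (q - 1) + v_2 (n!)`, that
of `n! (q - 1)^n` (`padicValNat` of products; everything is positive).  Hence `v_2 a = 0`. -/
def LteStmt : Prop := ∀ q n a : ℕ, q % 4 = 1 → 1 < q →
  (∏ i : Fin n, (q ^ n - q ^ (i : ℕ))) = (n.factorial * (q - 1) ^ n) * a → Odd a

/-- **CAN** (medium).  Every left coset `g Mon` contains exactly one canonical matrix.

Proof.  EXISTENCE.  The columns of `g` are nonzero (`g` invertible).  Multiply the column `j` by
the inverse of its first nonzero entry (a monomial matrix with the identity permutation): now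
`Nrm`.  Two different columns of an invertible matrix are different; so the map from the index to
the column, as an element of `Lex (Fin n → Fin q)` (via `eF`), is injective; compose with the
sorting permutation (`Tuple.sort`, `Tuple.monotone_sort`): strictly increasing.  (`Nrm` is about
single columns, hence invariant under permutations of the columns.)  UNIQUENESS.  Let `a` and
`a' = a u` be canonical, `u = (π, ζ)`.  The column `j` of `a u` is `ζ_j` times the column `π j` of
`a`.  Both have the first nonzero entry `1` (at the same place), so `ζ_j = 1`.  So the column `j` of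
`a'` is the column `π j` of `a`; both matrices have strictly increasing columns, so `π` is strictly
monotone (`LtC` is a strict linear order on different columns: it is `<` of
`Lex (Fin n → Fin q)`), so `π = 1`. -/
def CanStmt : Prop := ∀ (F : Type) [Field F] [Fintype F] [DecidableEq F] (n : ℕ)
  (g : Matrix.GeneralLinearGroup (Fin n) F),
  ∃! a : Matrix.GeneralLinearGroup (Fin n) F, Cnn a.1 ∧
    ∃ u : Matrix.GeneralLinearGroup (Fin n) F, IsMon u.1 ∧ g = a * u

/-- **PRB** (easy-medium; uses COS.GRP, MNG, LTE, CAN).  An odd number of pairs.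

Proof.  Let `U` be the subgroup from MNG and `X = GL_n (F) ⧸ U`, on which `H` acts through `φ`
(`MulAction.compHom`).  `|GL_n (F)| = ∏ i : Fin n, (q^n - q^i)` (`Matrix.card_GL_field`) is the
order of `U` times the index, so by LTE `|X|` is odd.  GRP: the number of the pairs `(s, t)` with
`φ w • s = t` for some `w ∈ W` is odd.  By CAN `a ↦ a U` is a bijection from the canonical
matrices onto `X`, and `φ w a U = a' U` iff `a'⁻¹ φ(w) a ∈ U`. -/
def PrbStmt : Prop := ∀ (F : Type) [Field F] [Fintype F] [DecidableEq F] (n : ℕ) (H : Type)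
  [Group H] (φ : H →* Matrix.GeneralLinearGroup (Fin n) F) (W : Set H),
  Fintype.card F % 4 = 1 → W.Nonempty → Heap W →
  Odd {s : Matrix.GeneralLinearGroup (Fin n) F × Matrix.GeneralLinearGroup (Fin n) F |
    Cnn s.1.1 ∧ Cnn s.2.1 ∧ ∃ w ∈ W, IsMon (s.2⁻¹ * φ w * s.1).1}.ncard

/-- the permutation matrix of a monomial matrix acting on the points `(j, z)`, `z ∈ F` -/
noncomputable def rho {F : Type} [Field F] [Fintype F] [DecidableEq F] {n : ℕ}
    (M : Matrix (Fin n) (Fin n) F) :
    Matrix (Fin (n * Fintype.card F)) (Fin (n * Fintype.card F)) (ZMod 2) :=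
  Matrix.of fun r s => if M r.divNat s.divNat ≠ 0 ∧
    (eF F).symm r.modNat = M r.divNat s.divNat * (eF F).symm s.modNat then 1 else 0

/-- **RHO** (medium).  `rho` is multiplicative and injective on monomial matrices.

Proof.  Write indices as pairs `(i, z)` (`finProdFinEquiv`, `Fin.divNat`, `Fin.modNat`, `eF`).  For
`M = (π, ζ)` the column `(j, z)` of `rho M` has its only entry `1` in the row `(π j, ζ_j z)`.  So
`rho M` is the permutation matrix of a permutation `σ_M` of the pairs, and `σ_(M M') = σ_M σ_M'`;
entry by entry: `∑_s rho M r s * rho M' s t` has at most one nonzero term, that of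
`s = (π' j, ζ'_j z)` for `t = (j, z)`.  INJECTIVE: take `z = 1`: the row of the entry `1` in the
column `(j, 1)` is `(π j, ζ_j)`.  The last two assertions follow: `A B⁻¹ C` for `A = rho M`, ... is
`rho (M M'⁻¹ M'')` (`rho M'⁻¹` is the inverse of `rho M'`), and `rho M` is invertible. -/
def RhoStmt : Prop := ∀ (F : Type) [Field F] [Fintype F] [DecidableEq F] (n : ℕ),
  (∀ M M' : Matrix (Fin n) (Fin n) F, IsMon M → IsMon M' → rho (M * M') = rho M * rho M') ∧
  rho (1 : Matrix (Fin n) (Fin n) F) = 1 ∧
  (∀ M M' : Matrix (Fin n) (Fin n) F, IsMon M → IsMon M' → rho M = rho M' → M = M') ∧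
  ∀ S : Set (Matrix.GeneralLinearGroup (Fin n) F), (∀ M ∈ S, IsMon M.1) → Heap S →
    Heap {A : Gr (n * Fintype.card F) | ∃ M ∈ S, A.1 = rho M.1} ∧
      ({A : Gr (n * Fintype.card F) | ∃ M ∈ S, A.1 = rho M.1}.Nonempty ↔ S.Nonempty)

/-- **LFT** (medium).  The fibres of a heap over `Z / p^k` are odd for odd `p`.

Proof.  Let `φ = GL.map η` and `N` the set of the `t` with `φ t = 1` and `w₀ t ∈ W`.  `N` is a
subgroup: `w₀ ∈ W`; `w₀ (s t) = (w₀ s) w₀⁻¹ (w₀ t)`; finite (or `w₀ t⁻¹ = w₀ (w₀ t)⁻¹ w₀`).  The
fibre is `w₀ N` (`φ w = φ w₀` iff `φ (w₀⁻¹ w) = 1`).  If `|N|` were even there would be `t ∈ N` of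
order `2` (Cauchy, `exists_prime_orderOf_dvd_card`).  Then `(t - 1) (t + 1) = 0`, and
`η (t + 1) = 2` is an invertible matrix over `F` (the characteristic of `F` divides `p^k`, it is
`p`, odd), so `η (det (t + 1)) = 2^n ≠ 0`; an element of `Z / p^k` which is not mapped to `0` is a
unit (its value is prime to `p`, `ZMod.isUnit_iff_coprime` or `ZMod.unitOfCoprime`; multiples of `p`
are nilpotent, so they are mapped to `0`).  Hence `t + 1` is invertible and `t = 1`. -/
def LftStmt : Prop := ∀ (F : Type) [Field F] (p k n : ℕ), p.Prime → p ≠ 2 →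
  ∀ (η : ZMod (p ^ k) →+* F) (W : Set (Gp p k n)), Heap W → ∀ w₀ ∈ W,
    Odd {w : Gp p k n | w ∈ W ∧ Matrix.GeneralLinearGroup.map η w =
      Matrix.GeneralLinearGroup.map η w₀}.ncard

/-- **FLD** (easy-medium).  The field.

Proof.  `p % 4 = 1`: `F = ZMod p`.  `p % 4 = 3`: `F = GaloisField p 2`, with `p^2` elements
(`GaloisField.card`), and `p^2 % 4 = 1`.  For `k ≥ 1`: `ZMod.castHom (dvd_pow_self p _) F` (the
characteristic of `F` is `p`; `ZMod.castHom` to a ring of characteristic `p`). -/
def FldStmt : Prop := ∀ p : ℕ, p.Prime → p ≠ 2 →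
  ∃ (F : Type) (_ : Field F) (_ : Fintype F), Fintype.card F % 4 = 1 ∧
    ∀ k : ℕ, 0 < k → Nonempty (ZMod (p ^ k) →+* F)

/-! ## Words -/

section words

variable (F : Type) [Field F] [Fintype F] [DecidableEq F]

/-- the word of an element of `F`, of length `q` -/
noncomputable def cF (a : F) : Word :=
  (List.range (Fintype.card F)).map fun t => decide (t = (eF F a : ℕ))

open Classical in
/-- the element of `F` with a given word (`0` if there is none) -/
noncomputable def dF (w : Word) : F := if h : ∃ a, cF F a = w then h.choose else 0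

open Classical in
/-- the word is the word of an element of `F` -/
noncomputable def okF (w : Word) : Bool := decide (∃ a, cF F a = w)

/-- the word of a matrix over `F`, row by row -/
noncomputable def encF {n : ℕ} (A : Matrix (Fin n) (Fin n) F) : Word :=
  (List.finRange (n * n)).flatMap fun r => cF F (A r.divNat r.modNat)

/-- the entry `(i, j)` of the `n × n` matrix over `F` written in the word `w` -/
noncomputable def gF (n : ℕ) (w : Word) (i j : ℕ) : F := dF F (blW (Fintype.card F) w (i * n + j))

/-- `w` is the word of an `n × n` matrix over `F` -/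
noncomputable def okM (n : ℕ) (w : Word) : Bool :=
  decide (w.length = n * n * Fintype.card F) &&
    decide (∀ t < n * n, okF F (blW (Fintype.card F) w t) = true)

/-- the product of the matrices in the words `a` and `b` is the identity -/
noncomputable def invW (n : ℕ) (a b : Word) : Bool :=
  decide (∀ i < n, decide (∀ j < n, decide ((∑ l ∈ Finset.range n, gF F n a i l * gF F n b l j) =
    if i = j then 1 else 0) = true) = true)

open Classical in
/-- the matrix in the word `a` is canonical -/
noncomputable def cnnW (n : ℕ) (a : Word) : Bool :=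
  decide (∀ j < n, decide (∀ i < n, (!decide (∀ i' < i, decide (gF F n a i' j = 0) = true) ||
    decide (gF F n a i j = 0) || decide (gF F n a i j = 1)) = true) = true) &&
  decide (∀ j < n, decide (∀ j' < n, (!decide (j < j') || decide (∃ i < n,
    (decide (∀ i' < i, decide (gF F n a i' j = gF F n a i' j') = true) &&
      decide (eF F (gF F n a i j) < eF F (gF F n a i j'))) = true)) = true) = true)

open Classical in
/-- the matrix in the word `M` is monomial -/
noncomputable def monW (n : ℕ) (M : Word) : Bool :=
  decide (∀ j < n, decide (∃ i < n, (!decide (gF F n M i j = 0) &&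
    decide (∀ i' < n, (decide (i' = i) || decide (gF F n M i' j = 0)) = true)) = true) = true) &&
  decide (∀ i < n, decide (∃ j < n, decide (gF F n M i j = 0) = false) = true)

/-- the element of `F` with the number `t` -/
noncomputable def nF (t : ℕ) : F :=
  if h : t < Fintype.card F then (eF F).symm ⟨t, h⟩ else 0

open Classical in
/-- `A` is the word of `rho M` -/
noncomputable def rhoW (n : ℕ) (M A : Word) : Bool :=
  decide (A.length = (n * Fintype.card F) * (n * Fintype.card F)) &&
  decide (∀ i < n, decide (∀ j < n, decide (∀ s < Fintype.card F, decide (∀ t < Fintype.card F,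
    decide (gt (n * Fintype.card F) A (i * Fintype.card F + s) (j * Fintype.card F + t) =
      decide (gF F n M i j ≠ 0 ∧ nF F s = gF F n M i j * nF F t)) = true) = true) = true) = true)

/-- the number with the binary digits `w`, the lowest first -/
def bval (w : Word) : ℕ := ∑ i ∈ Finset.range w.length, if w.getD i false then 2 ^ i else 0

/-- `w` is the word of an `n × n` matrix over `Z / p^k` -/
def okP (p k n : ℕ) (w : Word) : Bool :=
  decide (w.length = n * n * k * db p) && decide (∀ t < n * n * k, decide (bval (blW (db p) w t) < p) = true)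

/-- the lowest digit of the entry `(i, j)` of the `n × n` matrix over `Z / p^k` in the word `w` -/
def lowP (p k n : ℕ) (w : Word) (i j : ℕ) : ℕ := bval (blW (db p) w ((i * n + j) * k))

/-- the equation `η(w) a = a' M` -/
noncomputable def eqW (p k n : ℕ) (w a a' M : Word) : Bool :=
  decide (∀ i < n, decide (∀ j < n, decide (
    (∑ l ∈ Finset.range n, (lowP p k n w i l : F) * gF F n a l j) =
      ∑ l ∈ Finset.range n, gF F n a' i l * gF F n M l j) = true) = true)

/-- The parity predicate of part 2: `c = M w`, `M` the word of a monomial matrix, `A` the word of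
`rho M`, `w` the word of a matrix over `Z / p^k` accepted by `V` together with `x`, and
`η(w) a = a' M`. -/
noncomputable def memW (V : Word × Word → Bool) (p k n : ℕ) (x a a' A c : Word) : Bool :=
  okM F n (c.take (n * n * Fintype.card F)) && monW F n (c.take (n * n * Fintype.card F)) &&
  rhoW F n (c.take (n * n * Fintype.card F)) A &&
  okP p k n (c.drop (n * n * Fintype.card F)) && V (x, c.drop (n * n * Fintype.card F)) &&
  eqW F p k n (c.drop (n * n * Fintype.card F)) a a' (c.take (n * n * Fintype.card F))

/-- length of the words `c` -/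
def lenC (F : Type) [Fintype F] (p k n : ℕ) : ℕ := n * n * Fintype.card F + n * n * k * db p

/-- The certificates of part 2: the words `a, b, a', b'` of `n × n` matrices over `F` with
`a b = 1`, `a' b' = 1`, `a` and `a'` canonical, and a certificate of part 1. -/
noncomputable def val2 (val : (Word → Word → Bool) → ℕ → ℕ → Word → Bool) (len : ℕ → ℕ → ℕ)
    (V : Word × Word → Bool) (p k n : ℕ) (x C : Word) : Bool :=
  decide (C.length = 4 * (n * n * Fintype.card F) + len (n * Fintype.card F) (lenC F p k n)) &&
  (okM F n (blW (n * n * Fintype.card F) C 0) && okM F n (blW (n * n * Fintype.card F) C 1) &&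
  okM F n (blW (n * n * Fintype.card F) C 2) && okM F n (blW (n * n * Fintype.card F) C 3)) &&
  (invW F n (blW (n * n * Fintype.card F) C 0) (blW (n * n * Fintype.card F) C 1) &&
  invW F n (blW (n * n * Fintype.card F) C 2) (blW (n * n * Fintype.card F) C 3)) &&
  (cnnW F n (blW (n * n * Fintype.card F) C 0) && cnnW F n (blW (n * n * Fintype.card F) C 2)) &&
  val (memW F V p k n x (blW (n * n * Fintype.card F) C 0) (blW (n * n * Fintype.card F) C 2))
    (n * Fintype.card F) (lenC F p k n) (C.drop (4 * (n * n * Fintype.card F)))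

end words

/-- **WDF** (medium).  Words of matrices over `F`.

Proof.  `cF` is injective with values of length `q`, `dF (cF a) = a`, `okF w` iff `w = cF a` for
some `a`.  Blocks of a `flatMap` of words of the same length `q` (`blW q (encF A) t` is the word of
the entry number `t`), `t = i * n + j`, `Fin.divNat`, `Fin.modNat`.  Sums over `Finset.range n`
against sums over `Fin n` (`Finset.sum_range`). -/
def WdfStmt : Prop := ∀ (F : Type) [Field F] [Fintype F] [DecidableEq F] (n : ℕ),
  (∀ A : Matrix (Fin n) (Fin n) F, (encF F A).length = n * n * Fintype.card F ∧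
    okM F n (encF F A) = true ∧ (∀ i j : Fin n, gF F n (encF F A) i j = A i j)) ∧
  (∀ w, okM F n w = true → ∃ A : Matrix (Fin n) (Fin n) F, encF F A = w) ∧
  (∀ A B : Matrix (Fin n) (Fin n) F, encF F A = encF F B → A = B) ∧
  (∀ A B : Matrix (Fin n) (Fin n) F, invW F n (encF F A) (encF F B) = true ↔ A * B = 1) ∧
  (∀ A : Matrix (Fin n) (Fin n) F, cnnW F n (encF F A) = true ↔ Cnn A) ∧
  (∀ A : Matrix (Fin n) (Fin n) F, monW F n (encF F A) = true ↔ IsMon A) ∧
  (∀ (M : Matrix (Fin n) (Fin n) F) (B : Matrix (Fin (n * Fintype.card F))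
    (Fin (n * Fintype.card F)) (ZMod 2)), rhoW F n (encF F M) (COS.enc B) = true ↔ B = rho M)

/-- **WDP** (medium).  Words of matrices over `Z / p^k`.

Proof.  The blocks of length `db p` of `encP p k n A` are the words of the digits
`a / p^t % p < p ≤ 2 ^ db p` (`Nat.size`), `bval` of `(List.range b).map (testBit v)` is `v` for
`v < 2 ^ b`; the number `a < p^k` is determined by its `k` digits, and every family of `k` digits
`< p` is that of a number `< p^k`.  `η a = (a.val : F) = (a.val % p : F)`: the characteristic of
`F` is `p` (`p^k = 0` in `F`, so `p = 0`). -/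
def WdpStmt : Prop := ∀ (p k n : ℕ), p.Prime → 0 < k →
  (∀ A : Matrix (Fin n) (Fin n) (ZMod (p ^ k)), (encP p k n A).length = n * n * k * db p ∧
    okP p k n (encP p k n A) = true) ∧
  (∀ w, okP p k n w = true → ∃ A : Matrix (Fin n) (Fin n) (ZMod (p ^ k)), encP p k n A = w) ∧
  (∀ A B : Matrix (Fin n) (Fin n) (ZMod (p ^ k)), encP p k n A = encP p k n B → A = B) ∧
  ∀ (F : Type) [Field F] [Fintype F] [DecidableEq F] (η : ZMod (p ^ k) →+* F)
    (A : Matrix (Fin n) (Fin n) (ZMod (p ^ k))),
    (∀ i j : Fin n, (lowP p k n (encP p k n A) i j : F) = η (A i j)) ∧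
    ∀ a a' M : Matrix (Fin n) (Fin n) F,
      eqW F p k n (encP p k n A) (encF F a) (encF F a') (encF F M) = true ↔
        A.map η * a = a' * M

/-- **HPS** (medium; uses WDF, WDP, RHO, LFT, COS.WRA).  The parity set of `memW`.

Proof.  `a, a'` invertible.  Let `S` be the set of the monomial `M` (in `GL_n (F)`) with
`M = a'⁻¹ η(w) a` for some `w ∈ W = {w | V (x, encP w)}` (invertible `w`).  `S` is closed under
`M₁ M₂⁻¹ M₃` (as `W` is).  CLAIM: for `B : Gr (n q)` the number of the words `c` of length `lenC`
with `memW .. (enc B) c` is odd iff `B = rho M` for some `M ∈ S`.  Such a word is `encF M ++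
encP w` with unique `M`, `w` (WDF, WDP), `M` monomial, `B = rho M`, `V (x, encP w)`,
`η(w) a = a' M`; here `η(w)` is invertible, hence `w` is invertible (`det w` is not mapped to `0`,
so it is a unit of `Z / p^k`, see LFT).  `M` is determined by `B` (RHO).  So if `B = rho M` with `M`
monomial, the number is that of the `w ∈ W` with `η(w) = a' M a⁻¹`: zero, or odd by LFT.
Otherwise it is zero.  By RHO the set is a heap and it is nonempty iff `S` is. -/
def HpsStmt : Prop := ∀ (F : Type) [Field F] [Fintype F] [DecidableEq F] (p k n : ℕ),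
  p.Prime → p ≠ 2 → 0 < k → ∀ (η : ZMod (p ^ k) →+* F) (V : Word × Word → Bool) (x : Word)
  (a a' : Matrix.GeneralLinearGroup (Fin n) F),
  Heap {w : Gp p k n | V (x, encP p k n w.1) = true} →
  Heap (parSet (memW F V p k n x (encF F a.1) (encF F a'.1)) (n * Fintype.card F)
    (lenC F p k n)) ∧
  ((parSet (memW F V p k n x (encF F a.1) (encF F a'.1)) (n * Fintype.card F)
    (lenC F p k n)).Nonempty ↔ ∃ w : Gp p k n, V (x, encP p k n w.1) = true ∧
      IsMon (a'⁻¹ * Matrix.GeneralLinearGroup.map η w * a).1)

/-- **CNT** (medium; uses WDF, HPS, PRB).  The number of the certificates.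

Proof.  A word `C` accepted by `val2` is `encF a ++ encF a⁻¹ ++ encF a' ++ encF a'⁻¹ ++ C'` for
canonical `a, a'` in `GL_n (F)` (WDF; `a b = 1` makes `a` invertible) and `C'` accepted by
`val (memW ..) ..` (the length of `C'` is automatic).  So the number is the sum over the pairs
`(a, a')` of canonical matrices of the number of these `C'`, which is finite and, by the property
of `val` and HPS, odd iff `a'⁻¹ η(w) a` is monomial for some `w` of the heap
`W = {w | V (x, encP w)}`.  By PRB (with `H = Gp p k n`, `φ = GL.map η`) the number of these pairs is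
odd if `W` is nonempty; if it is empty there are no such pairs. -/
def CntStmt : Prop := ∀ (F : Type) [Field F] [Fintype F] [DecidableEq F] (p k n : ℕ),
  p.Prime → p ≠ 2 → 0 < k → Fintype.card F % 4 = 1 → (ZMod (p ^ k) →+* F) →
  ∀ (val : (Word → Word → Bool) → ℕ → ℕ → Word → Bool) (len : ℕ → ℕ → ℕ),
    (∀ f n l C, val f n l C = true → C.length = len n l) →
    (∀ f n l, Heap (parSet f n l) →
      (Odd {C : Word | val f n l C = true}.ncard ↔ (parSet f n l).Nonempty)) →
  ∀ (V : Word × Word → Bool) (x : Word),
    Heap {w : Gp p k n | V (x, encP p k n w.1) = true} →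
    (Odd {C : Word | val2 F val len V p k n x C = true}.ncard ↔
      {w : Gp p k n | V (x, encP p k n w.1) = true}.Nonempty)

/-! ## Polynomial time -/

/-- **TBL** (medium).  Finite tables in the calculus `FP`.

Proof.  Let `L` be the finite list of all words of length at most `c`.  (1) `g (A ρ)` is the
iterated conditional over `L`: if `A ρ = u₁` then `g u₁` else if `A ρ = u₂` ... (`FPW.eq`,
`FPW.const`, `FP.ite`), induction on a list containing the values of `A`.  (2) The same with
Booleans.  (3) Element of `F` in a word: `gF n (A ρ) (i ρ) (j ρ)` is a table of the block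
(`Helper50_COS.MCH`: `blF`), which has length at most `q`.  (4) A function of two elements `u, v`
of `F` is a table of the word `cF u ++ cF v`; for several arguments iterate or append.  (5) Sums:
for `c ∈ F` let `N_c` be the number of the `l < n` with `b l = c` (`FPN.count`); then
`∑ l < n, b l = ∑ c, (N_c % q) • c` (`q • c = 0` in `F`); the word
`(List.range q).map (t < N_c % q)` (`FPW.range`, `FPN.mod`) determines `N_c % q`; so the sum is a
table of the word which is the concatenation of these words over the finite list of the elements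
of `F` (length `q q`). -/
def TblStmt : Prop :=
  (∀ (m c : ℕ) (g : Word → Word) (A : (Fin m → List K) → Word), FPW m A →
    (∀ ρ, (A ρ).length ≤ c) → FPW m (fun ρ => g (A ρ))) ∧
  (∀ (m c : ℕ) (g : Word → Bool) (A : (Fin m → List K) → Word), FPW m A →
    (∀ ρ, (A ρ).length ≤ c) → FPB m (fun ρ => g (A ρ))) ∧
  (∀ (F : Type) [Field F] [Fintype F] [DecidableEq F] (m : ℕ) (A : (Fin m → List K) → Word)
    (n i j : (Fin m → List K) → ℕ), FPW m A → FPN m n → FPN m i → FPN m j →
    FPW m (fun ρ => cF F (gF F (n ρ) (A ρ) (i ρ) (j ρ)))) ∧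
  (∀ (F : Type) [Field F] [Fintype F] [DecidableEq F] (m : ℕ) (g : F → F → F)
    (u v : (Fin m → List K) → F), FPW m (fun ρ => cF F (u ρ)) → FPW m (fun ρ => cF F (v ρ)) →
    FPW m (fun ρ => cF F (g (u ρ) (v ρ)))) ∧
  (∀ (F : Type) [Field F] [Fintype F] [DecidableEq F] (m : ℕ) (g : F → F → Bool)
    (u v : (Fin m → List K) → F), FPW m (fun ρ => cF F (u ρ)) → FPW m (fun ρ => cF F (v ρ)) →
    FPB m (fun ρ => g (u ρ) (v ρ))) ∧
  (∀ (F : Type) [Field F] [Fintype F] [DecidableEq F] (m : ℕ) (n : (Fin m → List K) → ℕ)
    (b : ℕ → (Fin m → List K) → F), FPN m n →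
    FPW (m + 1) (fun σ => cF F (b (σ 0).length (fun i => σ i.succ))) →
    FPW m (fun ρ => cF F (∑ l ∈ Finset.range (n ρ), b l ρ)))

/-- **MEM** (medium; uses TBL).  `memW` is computed in polynomial time.

Proof.  `n = d.eval x.length`, `k = k.eval x.length` (`FPN.poly`, `FPW.len`); `FPW.take`,
`FPW.drop`, `blF` of `Helper50_COS/MCH.lean`; the loops are `FPB.all`, `FPB.exists`; the entries by
TBL (3), equations between elements of `F` by TBL (5th assertion), sums by TBL (6), the bounded
loops over `s, t < q` are `FPB.all` with `FPN.const`, and the conjunction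
`gF M i j ≠ 0 ∧ nF s = gF M i j * nF t` is a table of the word
`cF (gF M i j) ++ (word of s) ++ (word of t)` (unary words of length `q`).  `bval` of a block of
length `db p` (constant) is a table with values `< 2 ^ db p`: `bval (block) < p` is a table, and
`cF (lowP ..)` is a table of the block.  `V` is `FPB.call2`. -/
def MemStmt : Prop := ∀ (F : Type) [Field F] [Fintype F] [DecidableEq F]
  (V : Word × Word → Bool) (p : ℕ) (d k : Polynomial ℕ), PolyPair V →
  U5 (fun x a a' A c => memW F V p (k.eval x.length) (d.eval x.length) x a a' A c)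

/-- **MCB** (medium; uses TBL, MEM).  `val2` is computed in polynomial time.

Proof.  As MEM; the last factor is the property of `val` for
`G = fun x a a' A c => memW F V p (k |x|) (d |x|) x a a' A c`.  (`polyPair_of'` of
`Helper7_PAR/Mach.lean` at the end.) -/
def McbStmt : Prop := ∀ (F : Type) [Field F] [Fintype F] [DecidableEq F]
  (val : (Word → Word → Bool) → ℕ → ℕ → Word → Bool) (len : ℕ → ℕ → ℕ),
  (∀ G, U5 G → ∀ (m : ℕ) (X Y Z C : (Fin m → List K) → Word) (n l : (Fin m → List K) → ℕ),
    FPW m X → FPW m Y → FPW m Z → FPW m C → FPN m n → FPN m l →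
    FPB m (fun ρ => val (G (X ρ) (Y ρ) (Z ρ)) (n ρ) (l ρ) (C ρ))) →
  (∀ m (n l : (Fin m → List K) → ℕ), FPN m n → FPN m l → FPN m (fun ρ => len (n ρ) (l ρ))) →
  ∀ (V : Word × Word → Bool) (p : ℕ) (d k : Polynomial ℕ), PolyPair V →
    PolyPair (fun z => val2 F val len V p (k.eval z.1.length) (d.eval z.1.length) z.1 z.2)

/-- **ODM** (easy-medium; uses ONE, FLD, CNT, MCB).  The theorem for odd primes.

Proof.  Take `val`, `len` from ONE and `F` from FLD (`DecidableEq` classically), `L` the set of the
`x` for which the number of the words accepted by `val2` is odd; all of them have the length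
`4 n n q + len (n q) (lenC ..)` with `n = d |x|`, bounded by a polynomial (the last property of
`len` for the polynomials `d * q` and `lenC`), so `InParityP L` with the predicate of MCB.  For
`x ∈ P` CNT gives `x ∈ L` iff `modSols` is nonempty. -/
def OdmStmt : Prop := ∀ p : ℕ, p.Prime → p ≠ 2 → ∀ (V : Word × Word → Bool) (d k : Polynomial ℕ),
  PolyPair V → (∀ n, 0 < k.eval n) → ∀ P : Set Word, (∀ x ∈ P, Heap (modSols V p d k x)) →
    ∃ L, InParityP L ∧ ∀ x ∈ P, (x ∈ L ↔ (modSols V p d k x).Nonempty)

end Pool.Agent.COSB
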