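import Pool.Agent.COSB.StmtsB
import Pool.Agent.COSB.DefsT
import Pool.Agent.COS.StmtsT

/-!
# Squad COSB (MP_0fc649_lc), part 3: tensor isomorphism over `Z / p`, all primes `p`.  Statements
-/

set_option autoImplicit false

namespace Pool.Agent.COSB

open Turing Computability Pool.Agent.UT.Num Pool.Agent.H2XG Pool.Agent.PAR Pool.Agent.COS

/-- **MAN**: the theorem for one prime `p` (proved in ODM for odd `p` and in part 1 for `p = 2`). -/
def ManStmt (p : ℕ) : Prop := ∀ (V : Word × Word → Bool) (d k : Polynomial ℕ),
  PolyPair V → (∀ n, 0 < k.eval n) → ∀ P : Set Word, (∀ x ∈ P, Heap (modSols V p d k x)) →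
    ∃ L, InParityP L ∧ ∀ x ∈ P, (x ∈ L ↔ (modSols V p d k x).Nonempty)

/-- entry `(i, j)` of `M`, zero outside -/
def enR {R : Type} [CommRing R] {N : ℕ} (M : Matrix (Fin N) (Fin N) R) (i j : ℕ) : R :=
  if h : i < N ∧ j < N then M ⟨i, h.1⟩ ⟨j, h.2⟩ else 0

/-- `M` is block diagonal (blocks of sizes `n, n, n, N - 3 n`), and its first three diagonal blocks
map the tensor `T` to `T'` -/
def BlkSolR {R : Type} [CommRing R] (n N : ℕ) (T T' : Fin n → Fin n → Fin n → R)
    (M : Matrix (Fin N) (Fin N) R) : Prop :=
  (∀ i j : Fin N, blk n i ≠ blk n j → M i j = 0) ∧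
    ∀ i j k : Fin n, ∑ a : Fin n, ∑ b : Fin n, ∑ c : Fin n,
      enR M i a * enR M (n + j) (n + b) * enR M (2 * n + k) (2 * n + c) * T a b c = T' i j k

/-- **TGP** (medium; the row TIG of squad COS, `Helper49_COS/TIG.lean`, for any finite commutative
ring in place of `ZMod 2`).  For `3 n ≤ N` the invertible matrices with `BlkSolR` form a heap, which
is nonempty if and only if the tensors are isomorphic. -/
def TgpStmt : Prop := ∀ (R : Type) [CommRing R] [Finite R] (n N : ℕ)
  (T T' : Fin n → Fin n → Fin n → R), 3 * n ≤ N →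
  Heap {M : Matrix.GeneralLinearGroup (Fin N) R | BlkSolR n N T T' M.1} ∧
    ((∃ M : Matrix.GeneralLinearGroup (Fin N) R, BlkSolR n N T T' M.1) ↔ TIsoR T T')

/-- **TMP** (medium; compare `Helper30_COS/TIM.lean`).  The predicate is decidable in polynomial
time.

Proof.  For the words `x`, `y` put `N = 3 |x|`, `b = db p` (a constant) and let `V (x, y)` be the
predicate: there is `n < |x| + 1` with `|x| = 2 n ^ 3 b` such that all blocks of length `b` of `x`
are binary numbers `< p` and all blocks of `y` at the places of the entries `(i, j)` with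
`blk n i ≠ blk n j` are zero and, for all `i j k < n`,
`(∑ a < n, ∑ b < n, ∑ c < n, y[i, a] y[n + j, n + b] y[2 n + k, 2 n + c] x[(a n + b) n + c]) % p =
x[n ^ 3 + (i n + j) n + k]`, where `y[i, j]` is the binary number in the block number
`i N + j` of length `b` of `y` and `x[t]` that in the block `t` of `x`: `FPN.sum`, `FPN.mul`,
`FPN.mod`, `FPB.all`, `FPB.exists`, `FPB.eqN`, blocks `FPW.take`, `FPW.drop`; the binary number in a
block `u` is `∑ s < b, if u.getD s false then 2 ^ s else 0` with the constant `b` (a finite sum of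
conditionals of constants).  The words of tensors: a word of length `2 n ^ 3 b` whose blocks are
`< p` is `tcod T ++ tcod T'` for unique `T`, `T'` (and `n` is determined by the length).  The word
of `M` over `ZMod (p ^ 1)` consists of the blocks of the numbers `(M i j).val`, and `ZMod (p ^ 1)` is
`ZMod p` (`ZMod.ringEquivCongr (pow_one p)`, the same `val`).  If `|x|` or the blocks are not of
this form, the predicate is false for all `y`. -/
def TmpStmt : Prop := ∀ p : ℕ, p.Prime → ∃ V : Word × Word → Bool, PolyPair V ∧
  ∀ (x : Word) (M : Matrix (Fin (3 * x.length)) (Fin (3 * x.length)) (ZMod (p ^ 1))),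
    V (x, encP p 1 (3 * x.length) M) = true ↔
      ∃ (n : ℕ) (T T' : Fin n → Fin n → Fin n → ZMod p), x = tcod p n T ++ tcod p n T' ∧
        BlkSolR n (3 * x.length) T T' (M.map (ZMod.ringEquivCongr (pow_one p)))

/-- **TFP** (easy-medium; uses TGP, TMP).  Tensor isomorphism over `Z / p` is in parity-P.

Proof.  `ManStmt p` with `V` from TMP, `d = 3 X`, `k = 1`, `P` = all words.  For `x` of the form
`tcod T ++ tcod T'`, `n, T, T'` are determined by `x` (`n` by the length, as `db p > 0`; the
blocks), `3 n ≤ 3 |x|`, and TGP over `ZMod p`, transported along the ring isomorphism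
(`Matrix.GeneralLinearGroup.map`; `Heap` and nonemptiness are preserved).  For the other `x` the set
is empty.  (`d.eval x.length = 3 * x.length` only propositionally: state a lemma for a natural
number `N` with `N = 3 * x.length` and `subst`, see `Helper13_COS/TIF.lean`.) -/
def TfpStmt : Prop := ∀ p : ℕ, p.Prime → ManStmt p → InParityP (TensorIsoP p)

end Pool.Agent.COSB
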