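import Pool.Agent.COSB.DefsA
import Pool.Agent.COSB.StmtsB
import Pool.Agent.COSB.StmtsT

/-!
# Squad COSB (MP_0fc649_lc), part 1: matrices over `Z / 2^k`.  Statements

THEOREM.  Let `f` be a predicate of two words, `WS n k l f` the set of the invertible `n × n`
matrices `A` over `Z / 2^k` for which the number of the words `c` of length `l` with `f (enc2 k A) c`
is odd.  If `WS n k l f` is closed under `a b⁻¹ c`, then the number of the words of length
`LA n k l` accepted by `valA f n k l` is odd if and only if `WS n k l f` is nonempty (row ACT).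
`valA` is computed in polynomial time if `f` is (row AMC).

IDEA.  As in squad COS (`k = 1`): pairs `a`, `a'` of reduced matrices over `F_2` (canonical
representatives of the cosets of the unitriangular matrices `U` over `F_2`, an odd number of them),
`A`, `A'` the lifts to `Z / 2^k` with the entries `0`, `1`, the `u` with `A' u A⁻¹ ∈ W` and `u`
modulo two in `U`, and frames of their coordinates `crd k u`: first the lowest digits of all
entries, row by row, then the next digits of all entries, and so on.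

RULES.  Deliver every row in `Pool/Agent/HelperNN_COSB/XXX.lean`, `import
Pool.Agent.COSB.StmtsA`, namespace `Pool.Agent.COSB.HNN`, `theorem xxx (h1 : UseStmt) .. :
XxxStmt`.  `uses COS.FRM` means the hypothesis `COS.FrmStmt`, and so on.
-/

set_option autoImplicit false

namespace Pool.Agent.COSB

open Turing Computability Pool.Agent.UT.Num Pool.Agent.H2XG Pool.Agent.PAR Pool.Agent.COS

/-! ## Odd numbers of words -/

/-- **ODC** (medium; uses nothing).  The calculus of odd numbers of words.

Proof.  (1) congruence: the two sets are equal.  (2) `c ↦ (c.take m, c.drop m)` is a bijection from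
the words of length `m + l` onto the pairs of words of length `m` and `l`, with the inverse
`(a, b) ↦ a ++ b`; the number of the `c` is the sum over the words `a` of length `m` of the number
of the words `b` of length `l` with `P (a ++ b)` (for instance with the finite sets of the words of a
given length, `List.finite_length_eq`, `Set.ncard_eq_toFinset_card'`, `Finset.card_sigma`,
`Finset.sum_nat_mod` or `Finset.odd_sum_iff_odd_card_odd`).  (3) Induction on `N` with (2) for
`(N + 1) * l = N * l + l`: for `c = a ++ b`, `a.length = N * l`, `blW l c i = blW l a i` for `i < N`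
and `blW l c N = b`; the set of the `b` is `{b | P N b}` or empty, (6).  `N = 0`: the only word is
`[]`.  (4) there is one such word.  (5) the set of the `c` is the image of `{t | P (e t)}`
under the injective map `e` (`Set.ncard_image_of_injective`).  (6) by cases.  (7) as (2) for
types: `Odd` of the sum over `a` of the numbers of the `b`. -/
def OdcStmt : Prop :=
  (∀ (l : ℕ) (P Q : Word → Prop), (∀ c : Word, c.length = l → (P c ↔ Q c)) → (Od l P ↔ Od l Q)) ∧
  (∀ (m l : ℕ) (P : Word → Prop), Od (m + l) P ↔ Od m (fun a => Od l (fun b => P (a ++ b)))) ∧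
  (∀ (N l : ℕ) (P : ℕ → Word → Prop),
    Od (N * l) (fun c => ∀ i < N, P i (blW l c i)) ↔ ∀ i < N, Od l (P i)) ∧
  (∀ w : Word, Od w.length (fun c => c = w)) ∧
  (∀ (l : ℕ) (P : Word → Prop) (α : Type) (e : α → Word), Function.Injective e →
    (∀ t, (e t).length = l) → (∀ c : Word, c.length = l → ∃ t, e t = c) →
      (Od l P ↔ Odd {t : α | P (e t)}.ncard)) ∧
  (∀ (l : ℕ) (p : Prop) (P : Word → Prop), Od l (fun c => p ∧ P c) ↔ p ∧ Od l P) ∧
  ∀ (α β : Type) [Finite α] [Finite β] (P : α → β → Prop),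
    Odd {t : α × β | P t.1 t.2}.ncard ↔ Odd {a : α | Odd {b : β | P a b}.ncard}.ncard

/-! ## Group theory -/

/-- **RDK** (easy-medium; uses nothing).  Reduction modulo two and lifts.

Proof.  `z ↦ (z.val : ZMod 2)` is the ring homomorphism `ZMod.castHom (dvd_pow_self 2 _) (ZMod 2)`
from `ZMod (2 ^ k)` (`ZMod.natCast_val`, `ZMod.castHom_apply`), call it `φ`; `rd A = A.map φ`,
`π = Matrix.GeneralLinearGroup.map φ`.  `φ (z.val : ZMod (2 ^ k)) = z` for `z : ZMod 2`
(`map_natCast`, `ZMod.natCast_zmod_val`), so `rd (up k a) = a`.  A matrix `B` over `Z / 2^k` is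
invertible if `rd B` is: `det (rd B) = φ (det B)` (`RingHom.map_det`), and an element `z` of
`Z / 2^k` with `φ z ≠ 0` is a unit (its value is odd, prime to `2^k`: `ZMod.isUnit_iff_coprime`
with `ZMod.natCast_zmod_val`).  A unitriangular matrix over `F_2` has determinant one
(`Matrix.det_of_upperTriangular`, see `Helper86_COS/WRD.lean`). -/
def RdkStmt : Prop := ∀ n k : ℕ, 1 ≤ k →
  (∀ A B : Matrix (Fin n) (Fin n) (ZMod (2 ^ k)), rd (A * B) = rd A * rd B) ∧
  rd (1 : Matrix (Fin n) (Fin n) (ZMod (2 ^ k))) = 1 ∧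
  (∀ a : Matrix (Fin n) (Fin n) (ZMod 2), rd (up k a) = a) ∧
  (∃ π : G2 n k →* Gr n, ∀ A : G2 n k, (π A).1 = rd A.1) ∧
  (∀ a : Gr n, ∃ A : G2 n k, A.1 = up k a.1) ∧
  ∀ B : Matrix (Fin n) (Fin n) (ZMod (2 ^ k)), IsUni (rd B) → ∃ u : G2 n k, u.1 = B

/-- **PRK** (medium; uses COS.GRP, COS.CRD, COS.RED, RDK; adapt `Helper77_COS/PRS.lean`).  An odd
number of pairs.

Proof.  Take `U` from CRD and `X = Gr n ⧸ U` with the action of `G2 n k` through `π`
(`MulAction.compHom`), and GRP: the number of the pairs `(s, t)` of elements of `X` with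
`π w • s = t` for some `w ∈ W` is odd.  By RED the map `a ↦ a U` is a bijection from the reduced
matrices onto `X`.  `π w • (a U) = a' U` iff `a'⁻¹ π(w) a ∈ U` iff the matrix `u = A'⁻¹ w A` (with
the lifts `A`, `A'` from RDK, `π A = a`, `π A' = a'` as `rd (up k a) = a`) satisfies
`IsUni (rd u)`; and `A' u A⁻¹ = w`.  So `Sec2 k W a a'` is nonempty iff `π w • (a U) = a' U` for some
`w ∈ W`. -/
def PrkStmt : Prop := ∀ n k : ℕ, 1 ≤ k → ∀ W : Set (G2 n k), W.Nonempty → Heap W →
  Odd {p : Gr n × Gr n | Red p.1.1 ∧ Red p.2.1 ∧ (Sec2 k W p.1 p.2).Nonempty}.ncard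

/-- **DGT** (easy; uses nothing).  Lowest digits of natural numbers and divisibility.

Proof.  Both sides say `x % 2 ^ m = y % 2 ^ m`: `Nat.testBit_mod_two_pow`, `Nat.eq_of_testBit_eq`
for the left side; `Int.emod_emod_of_dvd`, `Int.ModEq`, `Nat.modEq_iff_dvd` for the right side. -/
def DgtStmt : Prop := ∀ x y m : ℕ,
  (∀ b < m, x.testBit b = y.testBit b) ↔ (2 : ℤ) ^ m ∣ (x : ℤ) - y

/-- **HMK** (medium-strong; uses DGT, RDK, COS.CRD).  The coordinates of a set, closed under `a b⁻¹ c`, of
matrices which are unitriangular modulo two form a homogeneous set.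

Proof.  Let `u, v ∈ W` have coordinates which agree before `t` and differ at `t`, `t = (b, i, j)`
(`b = t.divNat`, `i = t.modNat.divNat`, `j = t.modNat.modNat`; `t' < t` iff `b' < b`, or `b' = b` and
`i' < i`, or `b' = b` and `i' = i` and `j' < j`).  Let `w ∈ W`, `m = u⁻¹ w`, `w' = v m = v u⁻¹ w ∈ W`.
Write `u_ij` etc. for the values `(u.1 i j).val` as integers.  By DGT: (i) `2^b ∣ v_i'j' - u_i'j'` for
all `i', j'`; (ii) `2^(b+1) ∣ v_i'j' - u_i'j'` for `(i', j')` before `(i, j)`; (iii)
`2^(b+1)` does not divide `v_ij - u_ij`.  By RDK `rd m` is unitriangular (`π : G2 n k →* Gr n` of RDK maps `u`, `w` to the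
subgroup of COS.CRD, hence `m = u⁻¹ w` as well), so `m_ll` is odd and `m_lj` is even for `j < l`.  `w' = w + (v - u) m`, so
`w'_i'j' - w_i'j'` is congruent modulo `2^k`, hence modulo `2^(b+1)`, to
`s_i'j' = ∑ l, (v_i'l - u_i'l) m_lj'`.  All `s_i'j'` are divisible by `2^b` by (i): the digits `< b` of
`w'` and `w` agree.  For `(i', j')` before `(i, j)`: if `i' < i` all terms are divisible by
`2^(b+1)` by (ii); if `i' = i`, `j' < j`, the terms with `l < j` by (ii), those with `l ≥ j` by (i) and
`m_lj'` even.  So the digits `b` agree, too.  For `(i, j)`: the terms with `l < j` by (ii), those with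
`l > j` as `m_lj` is even, and the term with `l = j` is `(v_ij - u_ij) m_jj` with `m_jj` odd: not
divisible by `2^(b+1)`.  So the digits `b` of `w'_ij` and `w_ij` differ (DGT, the digits `< b`
agree). -/
def HmkStmt : Prop := ∀ n k : ℕ, 1 ≤ k → ∀ W : Set (G2 n k), Heap W →
  (∀ u ∈ W, IsUni (rd u.1)) → Homog {y | ∃ u ∈ W, crd k u.1 = y}

/-- **FRK** (easy-medium; uses COS.FRM, COS.CRD, RDK, HMK).  Frames of a section.

Proof.  If `Sec2 k W a a'` is empty there are no frames (field `mem`).  Otherwise let `A`, `A'` be the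
lifts (unique: units with the same value are equal) and `W'` the set of the `u` with
`IsUni (rd u)` and `A' u A⁻¹ ∈ W`.  It is closed under `u v⁻¹ w` (`A' u v⁻¹ w A⁻¹ =
(A' u A⁻¹) (A' v A⁻¹)⁻¹ (A' w A⁻¹)`; `rd` of `u v⁻¹ w` is unitriangular by CRD, through
`π : G2 n k →* Gr n`), `Sec2 k W a a' = {y | ∃ u ∈ W', crd k u.1 = y}`, so HMK and FRM apply. -/
def FrkStmt : Prop := ∀ n k : ℕ, 1 ≤ k → ∀ W : Set (G2 n k), Heap W → ∀ a a' : Gr n,
  (Odd {t : Fr (k * (n * n)) | IsFrame (Sec2 k W a a') t}.ncard ↔ (Sec2 k W a a').Nonempty)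

/-! ## Words -/

/-- **WOE** (medium; uses nothing).  Words of matrices over `Z / 2^k`.

Proof.  The letter number `t = (i * n + j) * k + b` of `enc2 k A` is the digit `b` of `A i j`
(`List.getElem_ofFn`, `Fin.divNat`, `Fin.modNat`).  The block `((enc2 k A).drop ((i * n + j) * k)).take k`
has the letters `(A i j).val.testBit b`, `b < k`, so `LATM.nval` of it is `(A i j).val < 2 ^ k`
(`LATM.testBit_nval`, `LATM.nval_lt`, `Nat.eq_of_testBit_eq`, `Nat.testBit_lt_two_pow`).  (4) is clear
from (3) or as the values determine the matrix.  (5) for a word `w` of length `n * n * k` take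
`A i j = gE n k w i j`.  (6) the digits `< k` of `x` are those of `(x : ZMod (2 ^ k)).val = x % 2 ^ k`
(`ZMod.val_natCast`, `Nat.testBit_mod_two_pow`). -/
def WoeStmt : Prop := ∀ n k : ℕ,
  (∀ A : Matrix (Fin n) (Fin n) (ZMod (2 ^ k)), (enc2 k A).length = n * n * k) ∧
  (∀ (A : Matrix (Fin n) (Fin n) (ZMod (2 ^ k))) (i j : Fin n),
    (gE n k (enc2 k A) i j : ZMod (2 ^ k)) = A i j) ∧
  (∀ A B : Matrix (Fin n) (Fin n) (ZMod (2 ^ k)), enc2 k A = enc2 k B → A = B) ∧
  (∀ w : Word, w.length = n * n * k →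
    ∃ A : Matrix (Fin n) (Fin n) (ZMod (2 ^ k)), enc2 k A = w) ∧
  ∀ (A : Matrix (Fin n) (Fin n) (ZMod (2 ^ k))) (e : ℕ → ℕ → ℕ),
    (∀ i j : Fin n, (e i j : ZMod (2 ^ k)) = A i j) → wE n k e = enc2 k A

/-- **WOC** (medium; uses nothing).  Words of coordinates, words of matrices over `F_2`.

Proof.  As WOE: the letter number `b * (n * n) + (i * n + j)` of `List.ofFn (crd k A)` is the digit
`b` of `A i j`.  (2) for `y` take the matrix whose entry `(i, j)` has the digits
`y (b, i, j)`, `b < k`.  (3) `uniW n` reads the letters with numbers `i * n + j < n * n ≤ k * (n * n)`,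
the lowest digits of the entries `A i j`, and `rd A i j = 1` iff this digit is one.  (4)
`gt n (enc a) i j` is `decide (a i j = 1)`, and `(a i j).val` is `1` or `0`. -/
def WocStmt : Prop := ∀ n k : ℕ, 1 ≤ k →
  (∀ A B : Matrix (Fin n) (Fin n) (ZMod (2 ^ k)), crd k A = crd k B → A = B) ∧
  (∀ y : Fin (k * (n * n)) → Bool, ∃ A : Matrix (Fin n) (Fin n) (ZMod (2 ^ k)), crd k A = y) ∧
  (∀ (A : Matrix (Fin n) (Fin n) (ZMod (2 ^ k))) (i j : Fin n),
    (gC n k (List.ofFn (crd k A)) i j : ZMod (2 ^ k)) = A i j) ∧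
  (∀ A : Matrix (Fin n) (Fin n) (ZMod (2 ^ k)),
    uniW n (List.ofFn (crd k A)) = true ↔ IsUni (rd A)) ∧
  ∀ (a : Matrix (Fin n) (Fin n) (ZMod 2)) (i j : Fin n),
    (gO n (enc a) i j : ZMod (2 ^ k)) = up k a i j

/-- **SEW** (easy-medium; uses RDK, WOE, WOC).  The section in words.

Proof.  `y = crd k B` for a unique matrix `B` (WOC).  `gm` says: `uniW`, that is `IsUni (rd B)`, and
`f (wE ..) c`, where the word `wE ..` is `enc2 k (A' * B * A⁻¹)` by WOE (5): the entry `(i, j)` of
`mm n (mm n (gO n (enc a')) (gC n k (ofFn y))) (gE n k (enc2 k A⁻¹))` is, as an element of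
`Z / 2^k`, the sum over `Finset.range n` of products (`Nat.cast_sum`, `Finset.sum_range`,
`Matrix.mul_apply`).  If `IsUni (rd B)` then `B = u.1` for some `u` (RDK), and `A' * u * A⁻¹` is in
`WS n k l f` iff the number of the `c` is odd; if not, there is no `c`.  In `Sec2` the matrices `A`,
`A'` are determined by their values (`Units.ext`). -/
def SewStmt : Prop := ∀ (n k l : ℕ) (f : Word → Word → Bool), 1 ≤ k → ∀ (a a' : Gr n) (A : G2 n k),
  A.1 = up k a.1 →
    {y : Fin (k * (n * n)) → Bool |
      Od l (fun c => gm f n k (enc a'.1) (enc2 k (A⁻¹).1) (List.ofFn y) c = true)} =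
        Sec2 k (WS n k l f) a a'

/-- **HLF** (medium; uses ODC, COS.WRA, RDK, WOE, WOC).  The codes of the reduced matrices.

Proof.  The map `a ↦ enc a.1 ++ enc2 k (A⁻¹).1`, `A` the lift of `a` (RDK, choose it), is injective
(WRA) and its image on the reduced matrices is the set of the words `h` of length `hl n k` with
`half n k h`: such an `h` is `enc a₀ ++ enc2 k B` for unique matrices `a₀`, `B` (WRA, WOE); `redW` is
`Red a₀` (WRA); the equation says `enc2 k (up k a₀ * B) = enc2 k 1` (WOE (5), WOC (5), see SEW), so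
`up k a₀ * B = 1`, and `up k a₀` is invertible with the inverse `B` (`Matrix.mul_eq_one_comm`),
`a₀ = rd (up k a₀)` is invertible, too.  Conversely these words are accepted.  So the set on the left
is the image of the set on the right under an injective map (the `A` on the right is unique). -/
def HlfStmt : Prop := ∀ n k : ℕ, 1 ≤ k → ∀ R : Word → Word → Prop,
  (Od (hl n k) (fun h => half n k h = true ∧ R (h.take (n * n)) (h.drop (n * n))) ↔
    Odd {a : Gr n | Red a.1 ∧ ∃ A : G2 n k, A.1 = up k a.1 ∧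
      R (enc a.1) (enc2 k (A⁻¹).1)}.ncard)

/-- **FCW** (medium; uses ODC, COS.WRB).  Frames with certificates.

Proof.  Put `S u = decide (Od l (fun c => g u c = true))` (classical).  CLAIM: for every word `F`,
`Od (cl N l) (fun C => frC g N l F C = true)` iff `frameW S N (blW N F 0) (blW N F 1)
(F.drop (2 * N)) (F.drop (2 * N + N * N)) = true`.  Indeed by ODC (2), twice, for
`C = c₀ ++ (C₁ ++ C₂)`, `c₀.length = l`, `C₁.length = C₂.length = N * l` the condition `frC` is
`A ∧ g y c₀ ∧ (∀ i < N, P i (blW l C₁ i)) ∧ (∀ i < N, P' i (blW l C₂ i))`, `A` the first factor,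
`P i c` is `g (Z_i) c` for `Q_i`, and `c = 0^l` otherwise, `P'` with `Z'_i`
(`C.take l = c₀`, `C.drop l = C₁ ++ C₂` and `blW l (C₁ ++ C₂) i = blW l C₁ i` for `i < N`,
`C.drop (l + N * l) = C₂`); by ODC (3), (4), (6) the number is odd iff `A`, `S y`, and for all `i < N`
with `Q_i` `S (Z_i)` and `S (Z'_i)`.  And `frameW S` differs from `A = frameW (fun _ => true)`
exactly by these conditions (unfold `frameW`).  Now let `e` be the map from WRB; ODC (5) with `e`
(`(e t).length = fl N`) and WRB for the predicate `S`. -/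
def FcwStmt : Prop := ∀ (g : Word → Word → Bool) (N l : ℕ),
  (Od (fl N) (fun F => Od (cl N l) (fun C => frC g N l F C = true)) ↔
    Odd {t : Fr N | IsFrame {y | Od l (fun c => g (List.ofFn y) c = true)} t}.ncard)

/-- **ACT** (medium; uses ODC, RDK, PRK, FRK, SEW, HLF, FCW).  The number of the certificates.

Proof.  ODC (2) three times: `c = h₁ ++ (h₂ ++ (F ++ C))` with `h₁`, `h₂` of length `hl n k`, and
`valA` is `half h₁ && (half h₂ && frC (gm f n k (h₂.take (n * n)) (h₁.drop (n * n))) .. F C)`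
(`List.take_left'`, `List.drop_left'`).  By ODC (1), (6) and FCW the number is odd iff
`Od (hl n k) (fun h₁ => half h₁ ∧ Od (hl n k) (fun h₂ => half h₂ ∧ T (h₂.take ..) (h₁.drop ..)))`,
`T α' β = Odd {t | IsFrame {y | Od l (fun c => gm f n k α' β (ofFn y) c = true)} t}.ncard`.  By HLF,
twice, this is `Odd {a | Red a ∧ ∃ A, A = up k a ∧ Odd {a' | Red a' ∧ ∃ A', .. ∧ T (enc a')
(enc2 A⁻¹)}.ncard}.ncard`; by SEW and FRK `T (enc a') (enc2 A⁻¹)` iff `Sec2 k (WS n k l f) a a'` is
nonempty (the lifts exist by RDK).  By ODC (7) it is the parity of the number of the pairs `(a, a')` of reduced matrices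
with nonempty `Sec2`: odd by PRK if `WS n k l f` is nonempty; there are none if it is empty. -/
def ActStmt : Prop := ∀ (n k l : ℕ) (f : Word → Word → Bool), 1 ≤ k → Heap (WS n k l f) →
  (Od (LA n k l) (fun c => valA f n k l c = true) ↔ (WS n k l f).Nonempty)

/-! ## Polynomial time -/

/-- **AM1** (medium; uses nothing; adapt `Helper50_COS/MCH.lean`).  `half` and `gm` are computed in
polynomial time.

Proof.  Numbers in binary: the calculus `FPV` of `Helper75_LAT/FPV.lean`, `Norm.lean` (`FPV.ofW` for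
`LATM.nval`, `FPV.sum`, `FPV.mul`, `FPV.ite`, `FPV.const`, `FPB.testBitV`).  `gE`: `FPV.ofW` of
`FPW.take`, `FPW.drop`; `gC`: `FPV.ofW` of `FPW.range` (`FPW.getD`); `gO`: `FPV.ite`; `mm`: `FPV.sum`
of `FPV.mul`; `wE`: `FPW.range` with `FPB.testBitV`, `FPN.div`, `FPN.mod`; `dl`: `FPV.ite` of
`FPB.eqN`; `redW`, `uniW`: `H50.redF`, `H50.uniF` of `Helper50_COS/MCH.lean`; equality of words:
`FPW.eq`; `f = G X Y Z`: the hypothesis `U5 G`. -/
def Am1Stmt : Prop :=
  (∀ (m : ℕ) (n k : (Fin m → List K) → ℕ) (h : (Fin m → List K) → Word), FPN m n → FPN m k →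
    FPW m h → FPB m (fun ρ => half (n ρ) (k ρ) (h ρ))) ∧
  ∀ G, U5 G → ∀ (m : ℕ) (n k : (Fin m → List K) → ℕ)
    (X Y Z a' b u c : (Fin m → List K) → Word), FPN m n → FPN m k → FPW m X → FPW m Y →
    FPW m Z → FPW m a' → FPW m b → FPW m u → FPW m c →
      FPB m (fun ρ => gm (G (X ρ) (Y ρ) (Z ρ)) (n ρ) (k ρ) (a' ρ) (b ρ) (u ρ) (c ρ))

/-- **AMC** (medium; uses AM1; adapt `Helper50_COS/MCH.lean`).  The certificates are checked in
polynomial time.

Proof.  The first factor of `frC` is `frameW` with the constant predicate (adapt `H50.frameF`),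
`blW`: `H50.blF`; the loop over `i < N`: `FPB.all`, `FPB.ite`, with AM1 for
`gm (G X Y Z) n k a' b` in the extended context; `List.replicate l false`: `FPW.range` or
`FPW.eq` of words; the rest: `FPW.take`, `FPW.drop`, `FPN.add`, `FPN.mul`. -/
def AmcStmt : Prop := ∀ G, U5 G → ∀ (m : ℕ) (X Y Z c : (Fin m → List K) → Word)
  (n k l : (Fin m → List K) → ℕ), FPW m X → FPW m Y → FPW m Z → FPW m c → FPN m n → FPN m k →
    FPN m l → FPB m (fun ρ => valA (G (X ρ) (Y ρ) (Z ρ)) (n ρ) (k ρ) (l ρ) (c ρ))

/-- **PAB** (easy; uses nothing; compare `Helper79_COS/MAI.lean`).  Languages in parity-P.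

Proof.  `V (x, c) = decide (c.length = L x) && g x c`, `polyPair_of'` of `Helper7_PAR/Mach.lean`
(`FPB.and`, `FPB.eqN`, `FPW.len`); `witnesses` is the set of the words `c` of length `L x` with
`g x c`. -/
def PabStmt : Prop := ∀ (g : Word → Word → Bool) (L : Word → ℕ) (q : Polynomial ℕ),
  (∀ (m : ℕ) (A B : (Fin m → List K) → Word), FPW m A → FPW m B →
    FPB m (fun ρ => g (A ρ) (B ρ))) →
  (∀ (m : ℕ) (A : (Fin m → List K) → Word), FPW m A → FPN m (fun ρ => L (A ρ))) →
  (∀ x, L x ≤ q.eval x.length) → InParityP {x | Od (L x) (fun c => g x c = true)}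

/-! ## Final rows -/

/-- **ECP** (easy-medium; uses nothing).  The word `encP 2 k n A` is `enc2 k A`.

Proof.  `db 2 = Nat.size 1 = 1`; `cod 2 k a` is the word with the letters
`(a.val / 2 ^ t % 2).testBit 0 = a.val.testBit t` (`Nat.testBit_zero`, `Nat.testBit_eq_decide_div_mod_eq`),
of length `k`; the letter number `(i * n + j) * k + b` of both words is the digit `b` of `A i j`
(`List.finRange`, `List.ofFn`; for instance `List.ext_getElem` with the lengths, or
`List.ofFn_mul`: `List.ofFn` over `Fin (m * k)` is the `flatten` of the `List.ofFn` of the blocks). -/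
def EcpStmt : Prop := ∀ (n k : ℕ) (A : Matrix (Fin n) (Fin n) (ZMod (2 ^ k))),
  encP 2 k n A = enc2 k A

/-- **MA2** (easy-medium; uses ACT, AMC, PAB, ECP).  The theorem for `p = 2`.

Proof.  Let `G x _ _ A _ = V (x, A)` (`U5 G` by `FPB.call2`), `f = G x [] []`, `l = 0`: the number of
the words `c` of length `0` with `f A c` is `1` or `0`, so `WS n k 0 f = modSols V 2 d k x` for
`n = d |x|`, `k = k |x|` (ECP).  `L = {x | Od (LA n k 0) (fun c => valA f n k 0 c = true)}`: PAB with
AMC (`FPN.poly`, `FPW.len`), `LA` is a polynomial in `n`, `k`; ACT. -/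
def Ma2Stmt : Prop := ManStmt 2

/-- **ONG** (easy-medium; uses ACT, AMC, WOE).  The interface of part 2 from part 1 with `k = 1`.

Proof.  `len n l = LA n 1 l`, `val f n l C = decide (C.length = len n l) && valA f n 1 l C`.
`ZMod (2 ^ 1)` is `ZMod 2`: the map `A ↦ A.map (fun z => (z.val : ZMod 2))` is an isomorphism from
`G2 n 1` to `Gr n` (`ZMod.ringEquivCongr (pow_one 2)` or `ZMod.castHom`), and `enc2 1 A` is `enc` of
the image (`n * n * 1`, letters `testBit 0`), so it maps `WS n 1 l f` onto `parSet f n l`: one is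
closed under `a b⁻¹ c` iff the other is, one is nonempty iff the other is.  The properties of
`len` are clear (`LA` is a polynomial expression: `FPN.add`, `FPN.mul`, `FPN.const`; the
polynomial `e` is the same expression in the polynomials `n`, `l`). -/
def OngStmt : Prop := OneStmt

end Pool.Agent.COSB
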