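import Pool.Agent.COSB.StmtsT
import Pool.Agent.COSB.DefsE

/-!
# Squad COSB (MP_0fc649_lc), part 4: all finite fields.  Statements
-/

set_option autoImplicit false

namespace Pool.Agent.COSB

open Turing Computability Pool.Agent.UT.Num Pool.Agent.H2XG Pool.Agent.PAR Pool.Agent.COS

/-- the theorem for a finite field `E` with a code `c` of its elements -/
def ManE (E : Type) [Field E] (c : E → Word) : Prop :=
  ∀ (V : Word × Word → Bool) (d : Polynomial ℕ), PolyPair V → ∀ P : Set Word,
    (∀ x ∈ P, Heap (fldSols c V d x)) →
    ∃ L, InParityP L ∧ ∀ x ∈ P, (x ∈ L ↔ (fldSols c V d x).Nonempty)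

/-- **RST** (medium).  Restriction of scalars, group theory.

Proof.  `p` the characteristic of `E` (a prime, `ZMod p`-algebra structure `ZMod.algebra`), `s` the
dimension of `E` over `ZMod p`, `θ : E → Matrix (Fin s) (Fin s) (ZMod p)` the left multiplication
matrices of a basis indexed by `Fin s` (`Algebra.leftMulMatrix`, injective:
`Algebra.leftMulMatrix_injective`).  For `A` over `E` put
`Θ A ((i, a), (j, b)) = θ (A i j) a b`, `(i, a)` the index `i s + a`: `Θ` is multiplicative, unital
and injective (sums over `Fin (n s)` are double sums, `finProdFinEquiv`), so it maps `GL_n (E)` to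
`GL_(n s) (ZMod p)`, and the image of a heap is a heap.  `s ≥ 1`, `(M i j).val < p`.  Over
`ZMod (p ^ 1)` compose with `ZMod.ringEquivCongr (pow_one p)`. -/
def RstStmt : Prop := ∀ (E : Type) [Field E] [Finite E], ∃ (p s : ℕ)
  (θ : E → Matrix (Fin s) (Fin s) (ZMod (p ^ 1))), p.Prime ∧ 0 < s ∧ Function.Injective θ ∧
  ∀ (n : ℕ) (S : Set (Matrix.GeneralLinearGroup (Fin n) E)), Heap S →
    Heap {B : Gp p 1 (n * s) | ∃ A ∈ S, ∀ r t : Fin (n * s),
      B.1 r t = θ (A.1 r.divNat t.divNat) r.modNat t.modNat} ∧
    ({B : Gp p 1 (n * s) | ∃ A ∈ S, ∀ r t : Fin (n * s),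
      B.1 r t = θ (A.1 r.divNat t.divNat) r.modNat t.modNat}.Nonempty ↔ S.Nonempty) ∧
    (∀ (B : Gp p 1 (n * s)) (A : Matrix (Fin n) (Fin n) E), (∀ r t : Fin (n * s),
      B.1 r t = θ (A r.divNat t.divNat) r.modNat t.modNat) → IsUnit A)

/-- **RSM** (medium; uses TBL).  Restriction of scalars, machine.

Proof.  Let `b = db p` (constant), `n = d |x|`, `N = n s`.  For `i, j < n` let `u_(i, j)` be the word
of length `s s b` which is the concatenation over `a, a' < s` of the blocks number
`(i s + a) N + (j s + a')` of length `b` of `y`.  There is at most one `e ∈ E` such that `u_(i, j)`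
is the concatenation of the words `cod p 1 (θ e a a')`; `V'` rejects if there is none, if the length
of `y` is not `N N b`, and otherwise it asks `V (x, z)`, `z` the concatenation of the words `c e`
over the pairs `(i, j)`, row by row.  In the calculus `FP`: `u_(i, j)` is an append of `s s` blocks
(`FPW.take`, `FPW.drop`, `FPW.append`, induction over the constants `a`, `a'`), `c e` is a table of
`u_(i, j)` (TBL (1)), the concatenation over `i n + j < n n` is `FP.rangeFlatMap`, `V` is
`FPB.call2`. -/
def RsmStmt : Prop := ∀ (E : Type) [Field E] [Finite E] (c : E → Word) (p s : ℕ)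
  (θ : E → Matrix (Fin s) (Fin s) (ZMod (p ^ 1))), p.Prime → 0 < s → Function.Injective θ →
  ∀ (V : Word × Word → Bool) (d : Polynomial ℕ), PolyPair V →
  ∃ V' : Word × Word → Bool, PolyPair V' ∧
    ∀ (x : Word) (n : ℕ), n = d.eval x.length → ∀ B : Matrix (Fin (n * s)) (Fin (n * s))
      (ZMod (p ^ 1)), V' (x, encP p 1 (n * s) B) = true ↔
        ∃ A : Matrix (Fin n) (Fin n) E, V (x, encE c A) = true ∧
          ∀ r t : Fin (n * s), B r t = θ (A r.divNat t.divNat) r.modNat t.modNat

/-- **RSF** (easy-medium; uses RST, RSM).  The theorem for finite fields.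

Proof.  `p, s, θ` from RST, `V'` from RSM, `ManStmt p` for `V'`, the polynomials `d * s` and `1`.
`modSols V' p (d * s) 1 x` is the image of `fldSols c V d x` (state it for `n` with
`n = d.eval x.length` and `N = n * s`, `subst`; the `A` of RSM is a unit by the last part of RST).
The code `c` need not be injective. -/
def RsfStmt : Prop := (∀ p : ℕ, p.Prime → ManStmt p) → ∀ (E : Type) [Field E] [Finite E]
  (c : E → Word), ManE E c

/-- **TME** (medium; uses TBL).  Tensor isomorphism over `E`: machine.

Proof.  `F = E` in TBL (`Fintype`, `DecidableEq` classically), `N = 3 |x|`, `l` the length of the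
words `c e`, `l ≥ 1` as `E` has two elements and `c` is injective.  `V (x, y)`: there is
`n < |x| + 1` with `|x| = 2 n ^ 3 l` such that all blocks of length `l` of `x` are words `c e`, all
blocks of `y` at the places `(i, j)` with `blk n i ≠ blk n j` are `c 0` and, for all `i j k < n`,
`∑ a < n, ∑ b < n, ∑ c < n, y[i, a] y[n + j, n + b] y[2 n + k, 2 n + c] x[(a n + b) n + c] =
x[n ^ 3 + (i n + j) n + k]` in `E`, where `x[t]`, `y[i, j]` are the elements with the code in the
block: `cF` of them is a table of the block (TBL (1)), products TBL (4), sums TBL (6), equations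
TBL (5).  The word `x` determines `n`, `T`, `T'`. -/
def TmeStmt : Prop := ∀ (E : Type) [Field E] [Finite E] (c : E → Word) (l : ℕ),
  Function.Injective c → (∀ e, (c e).length = l) → ∃ V : Word × Word → Bool, PolyPair V ∧
  ∀ (x : Word) (M : Matrix (Fin (3 * x.length)) (Fin (3 * x.length)) E),
    V (x, encE c M) = true ↔
      ∃ (n : ℕ) (T T' : Fin n → Fin n → Fin n → E), x = ecod c T ++ ecod c T' ∧
        BlkSolR n (3 * x.length) T T' M

/-- **TFE** (easy-medium; uses TGP, TME).  Tensor isomorphism over `E` is in parity-P.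

Proof.  `ManE E c` with `V` from TME, `d = 3 X`, `P` = all words.  For `x = ecod c T ++ ecod c T'`
the number `n` and the tensors are determined by `x` (`l ≥ 1`, `c` injective, blocks), `3 n ≤ 3 |x|`,
and TGP.  For the other `x` the set is empty.  (`d.eval x.length = 3 * x.length` only
propositionally: state a lemma for `N = 3 * x.length` and `subst`, see `Helper13_COS/TIF.lean`.) -/
def TfeStmt : Prop := ∀ (E : Type) [Field E] [Finite E] (c : E → Word) (l : ℕ),
  Function.Injective c → (∀ e, (c e).length = l) → ManE E c → InParityP (TensorIsoE c)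

end Pool.Agent.COSB
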