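import Pool.Agent.COSB.DefsL
import Pool.Agent.COSB.StmtsA
import Pool.Agent.LAT.StmtsW

/-!
# Squad COSB (MP_0fc649_lc), part 1b: integer matrices and lattice isomorphism.  Statements

A set `S` of invertible integer matrices whose entries (and those of the inverses) have `w + 1`
binary digits, closed under `a b⁻¹ c`, is mapped injectively to matrices modulo `2 ^ (w + 1)`, and
its image is recognised with the unique certificate `U⁻¹`: part 1 applies.  Positive definite
forms `Q`, `Q'`: the `U` with `U Q Uᵀ = Q'` have small entries.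

RULES.  Deliver every row in `Pool/Agent/HelperNN_COSB/XXX.lean`, `import
Pool.Agent.COSB.StmtsL`, namespace `Pool.Agent.COSB.HNN`, `theorem xxx (h1 : UseStmt) .. :
XxxStmt`.  `LAT.WDA` means the hypothesis `LAT.WdaStmt`, and so on (proved in `Helper58_LAT/WD.lean`).
-/

set_option autoImplicit false

namespace Pool.Agent.COSB

open Turing Computability Pool.Agent.UT.Num Pool.Agent.H2XG Pool.Agent.PAR Pool.Agent.COS Matrix

/-! ## Words of integer matrices -/

/-- the entry `(i, j)` of the integer matrix written in the word `u` -/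
def nz (n w : ℕ) (u : Word) (i j : ℕ) : ℤ := LAT.num u ((i * n + j) * (w + 1)) (w + 1)

/-- **TBZ** (easy-medium; uses nothing).  Digits of an integer modulo `2^w`.

Proof.  `((z : ZMod (2 ^ w)).val : ℤ) = z % 2 ^ w` (`ZMod.val_intCast`, `2 ^ w ≠ 0`).  For `z = n` a
natural number: `n % 2 ^ w` has the digits of `n` below `w` (`Nat.testBit_mod_two_pow`), and
`Int.testBit (n : ℤ) b = Nat.testBit n b`.  For `z = -(n + 1)` (`Int.negSucc n`): `z % 2 ^ w =
2 ^ w - 1 - n % 2 ^ w` and the digit `b < w` is the complement of that of `n`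
(`Nat.testBit_two_pow_sub_succ`); `Int.testBit (Int.negSucc n) b = !Nat.testBit n b`. -/
def TbzStmt : Prop := ∀ (w : ℕ) (z : ℤ) (b : ℕ), b < w →
  (z : ZMod (2 ^ w)).val.testBit b = z.testBit b

/-- **ENZ** (medium; uses TBZ, LAT.WDA, LAT.WDB).  Words of integer matrices.

Proof.  (1) letter by letter with TBZ.  The block of length `w + 1` from the position
`(i * n + j) * (w + 1)` in `encZ w U` is `LAT.bits (w + 1) (U i j)` (letters `(U i j).testBit b`); so
(2) is WDA.  (3) for a word `u` of length `n * n * (w + 1)` the block is `LAT.bits (w + 1)` of its value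
by WDB, and the value lies in the range. -/
def EnzStmt : Prop := ∀ n w : ℕ,
  (∀ U : Matrix (Fin n) (Fin n) ℤ,
    encZ w U = enc2 (w + 1) (U.map (fun z => (z : ZMod (2 ^ (w + 1))))) ∧
    (encZ w U).length = n * n * (w + 1)) ∧
  (∀ (U : Matrix (Fin n) (Fin n) ℤ) (i j : Fin n), -(2 : ℤ) ^ w ≤ U i j → U i j < 2 ^ w →
    nz n w (encZ w U) i j = U i j) ∧
  ∀ u : Word, u.length = n * n * (w + 1) →
    encZ w (Matrix.of fun i j : Fin n => nz n w u i j) = u ∧
      ∀ i j : Fin n, -(2 : ℤ) ^ w ≤ nz n w u i j ∧ nz n w u i j < 2 ^ w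

/-- the product of the integer matrices in the words `u` and `c` is the identity -/
def MulOk (n w : ℕ) (u c : Word) : Prop := ∀ i < n, ∀ j < n,
  ∑ l ∈ Finset.range n, nz n w u i l * nz n w c l j = if i = j then 1 else 0

/-- **CHZ** (easy-medium; uses ENZ).  Words of an invertible integer matrix and of its inverse.

Proof.  `U i j = nz n w u i j`, `C i j = nz n w c i j`: the sums say `U * C = 1` (`Finset.sum_range`),
so `U` is invertible with the inverse `C` (`Matrix.mul_eq_one_comm`), and `encZ w U = u`,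
`encZ w C = c`, with entries in the range, by ENZ (3).  Conversely by ENZ (2). -/
def ChzStmt : Prop := ∀ (n w : ℕ) (u c : Word), u.length = n * n * (w + 1) →
  c.length = n * n * (w + 1) → (MulOk n w u c ↔
    ∃ U : Matrix.GeneralLinearGroup (Fin n) ℤ, RgU w U ∧ u = encZ w U.1 ∧ c = encZ w (U⁻¹).1)

/-- **INH** (medium; uses WOE, ENZ).  From integer matrices to matrices modulo `2^(w+1)`.

Proof.  Let `π : GL_n(ℤ) → G2 n (w + 1)` be `Matrix.GeneralLinearGroup.map (Int.castRingHom _)`.
CLAIM: `WS .. f = π '' S`.  Let `A` be in `WS`; there is a word `c` with `f (enc2 A) c` (an odd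
number is not zero), so `enc2 A = encZ w U.1` for some `U ∈ S`, which is `enc2 (π U)` by ENZ (1), so
`A = π U` by WOE (3).  Conversely let `A = π U`, `U ∈ S`; the words `c` of length `n * n * (w + 1)` with
`f (enc2 A) c` are the `encZ w U'⁻¹` with `U' ∈ S`, `encZ w U' = enc2 A = encZ w U`; by ENZ (2) and the
range of the entries `U' = U`, so there is exactly one such `c`.  The image of a set closed under
`a b⁻¹ c` under a homomorphism is closed under it, too, and it is nonempty iff the set is. -/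
def InhStmt : Prop := ∀ (n w : ℕ) (S : Set (Matrix.GeneralLinearGroup (Fin n) ℤ)), Heap S →
  (∀ U ∈ S, RgU w U) → ∀ f : Word → Word → Bool,
    (∀ u c : Word, u.length = n * n * (w + 1) → c.length = n * n * (w + 1) →
      (f u c = true ↔ ∃ U ∈ S, u = encZ w U.1 ∧ c = encZ w (U⁻¹).1)) →
    Heap (WS n (w + 1) (n * n * (w + 1)) f) ∧
      ((WS n (w + 1) (n * n * (w + 1)) f).Nonempty ↔ S.Nonempty)

/-! ## Positive definite forms -/

/-- **BDL** (medium; uses nothing).  The entries of the isometries are small.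

Proof.  Let `b = 2 ^ w`, `u` the row `i` of `U`; `Q(v) = v ⬝ᵥ (Q *ᵥ v)`, so `Q(u) = Q' i i < b`, and
`Q(e_k) = Q k k < b`.  CAUCHY-SCHWARZ: for `B = u ⬝ᵥ (Q *ᵥ e_k)`, `q = Q(e_k) > 0`:
`0 ≤ Q(q u - B e_k) = q (q Q(u) - B²)` (positive definite, or zero for the vector `0`; symmetry of `Q`),
so `B² ≤ q Q(u) < b²` and `|B| < b`: all entries of `u Q` have absolute value `< b`.
`det Q ≠ 0`: otherwise `Q v = 0` for some integral `v ≠ 0` (`Matrix.exists_mulVec_eq_zero_iff`) and
`Q(v) = 0`.  `det Q * u_j = ∑ k, (u Q)_k * adj(Q)_kj` (`Matrix.mul_adjugate`), and the entries of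
`adj Q` are determinants of matrices with entries of absolute value `≤ b` (`Matrix.adjugate_apply`:
`Q` with a row replaced by a unit vector), so `|adj(Q)_kj| ≤ n! b^n` (`Matrix.det_le` for the absolute
value, `AbsoluteValue.abs`).  Hence `|u_j| ≤ |det Q * u_j| ≤ n b n! b^n` and
`n n! < 2 ^ (n (n + 1))` (`n < 2 ^ n`, `n! ≤ n ^ n`), `b^(n+1) = 2 ^ (w (n + 1))`, with the strict
inequality from `n ≥ 1` (there is an index `i`); `(n + 1) (n + w) = n (n + 1) + w (n + 1)`. -/
def BdlStmt : Prop := ∀ (n w : ℕ) (Q Q' : Matrix (Fin n) (Fin n) ℤ), PosF Q →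
  (∀ i j, |Q i j| < 2 ^ w) → (∀ i j, |Q' i j| < 2 ^ w) →
    ∀ U : Matrix.GeneralLinearGroup (Fin n) ℤ, U.1 * Q * U.1ᵀ = Q' →
      ∀ i j, |U.1 i j| < 2 ^ ((n + 1) * (n + w))

/-- the width of the numbers in the certificates -/
def wl (n w : ℕ) : ℕ := (n + 1) * (n + w)

/-- the isometries with small entries -/
def SL {n : ℕ} (w : ℕ) (Q Q' : Matrix (Fin n) (Fin n) ℤ) :
    Set (Matrix.GeneralLinearGroup (Fin n) ℤ) :=
  {U | RgU (wl n w) U ∧ U.1 * Q * U.1ᵀ = Q'}

/-- **HPL** (easy-medium; uses BDL).  The isometries form a heap.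

Proof.  If `U Q Uᵀ = Q'` then `U⁻¹ Q' U⁻¹ᵀ = Q`, so BDL for `U` (form `Q`) and for `U⁻¹` (form `Q'`)
gives `RgU (wl n w) U`: `SL w Q Q'` is the set of all `U` with `U Q Uᵀ = Q'`.  For `a, b, c` in it
`(a b⁻¹ c) Q (a b⁻¹ c)ᵀ = a b⁻¹ Q' b⁻¹ᵀ aᵀ = a Q aᵀ = Q'`. -/
def HplStmt : Prop := ∀ (n w : ℕ) (Q Q' : Matrix (Fin n) (Fin n) ℤ), PosF Q → PosF Q' →
  (∀ i j, |Q i j| < 2 ^ w) → (∀ i j, |Q' i j| < 2 ^ w) →
    Heap (SL w Q Q') ∧ ((SL w Q Q').Nonempty ↔ IsoF Q Q')

/-! ## Instances of lattice isomorphism -/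

/-- the number `n` of an instance -/
def qn (x : Word) : ℕ := LAT.lead x

/-- the rest of the word -/
def q1 (x : Word) : Word := x.drop (qn x + 1)

/-- the number `w` of an instance -/
def qw (x : Word) : ℕ := LAT.lead (q1 x)

/-- the rest of the word -/
def q2 (x : Word) : Word := (q1 x).drop (qw x + 1)

/-- the entry `(i, j)` of the first matrix -/
def qQ (x : Word) (i j : ℕ) : ℤ := nz (qn x) (qw x) (q2 x) i j

/-- the entry `(i, j)` of the second matrix -/
def qR (x : Word) (i j : ℕ) : ℤ :=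
  nz (qn x) (qw x) ((q2 x).drop (qn x * qn x * (qw x + 1))) i j

/-- the width for the instance `x` -/
def wx (x : Word) : ℕ := wl (qn x) (qw x)

/-- `u` and `c` are the words of `U` and `U⁻¹`, and `U Q Uᵀ = Q'` -/
def FL (x u c : Word) : Prop :=
  MulOk (qn x) (wx x) u c ∧ ∀ i < qn x, ∀ j < qn x,
    ∑ a ∈ Finset.range (qn x), ∑ b ∈ Finset.range (qn x),
      nz (qn x) (wx x) u i a * qQ x a b * nz (qn x) (wx x) u j b = qR x i j

open Classical in
/-- the predicate of the machine -/
noncomputable def fL (x u c : Word) : Bool := decide (FL x u c)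

/-- **WRL** (easy-medium; uses ENZ; compare `Helper96_LAT/PRS.lean`).  Reading of an instance.

Proof.  `LAT.lead (List.replicate n true ++ false :: v) = n`, dropping `n + 1` letters leaves `v`;
twice.  Then `q2 x = encZ w Q ++ encZ w Q'`; the blocks of the first matrix lie in
`encZ w Q` (`(i * n + j) * (w + 1) + (w + 1) ≤ n * n * (w + 1)`), and dropping its length leaves
`encZ w Q'`; ENZ (2). -/
def WrlStmt : Prop := ∀ (n w : ℕ) (Q Q' : Matrix (Fin n) (Fin n) ℤ),
  (∀ i j, |Q i j| < 2 ^ w) → (∀ i j, |Q' i j| < 2 ^ w) →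
    qn (encL n w Q Q') = n ∧ qw (encL n w Q Q') = w ∧
      (∀ i j : Fin n, qQ (encL n w Q Q') i j = Q i j) ∧
      ∀ i j : Fin n, qR (encL n w Q Q') i j = Q' i j

/-- **LMC** (medium; uses nothing; adapt `Helper7_LAT/MCH.lean`).  The predicate is computed in
polynomial time.

Proof.  The calculi `FPP` (`Helper7_LAT/FPP.lean`) and `FPI` (`Helper75_LAT/FPI.lean`);
`numI`, `leadN` of `Helper7_LAT/MCH.lean` for `LAT.num`, `LAT.lead`; `qn`, `qw`, `wx` are in `FPN`,
`q1`, `q2` in `FPW`; `FPP.all`, `FPI.sum`, `FPI.mul`, `FPP.eqI`, `FPI.iteP`, `FPP.and`,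
`FPP.decide'`. -/
def LmcStmt : Prop := U5 (fun x _ _ u c => fL x u c) ∧
  (∀ (m : ℕ) (A : (Fin m → List K) → Word), FPW m A → FPN m (fun ρ => qn (A ρ))) ∧
  ∀ (m : ℕ) (A : (Fin m → List K) → Word), FPW m A → FPN m (fun ρ => wx (A ρ))

/-- **LIF** (medium; uses ACT, AMC, PAB, ENZ, CHZ, INH, HPL, WRL, LMC).  Lattice isomorphism is in
parity-P.

Proof.  Put `k = wx x + 1`, `l = qn x * qn x * k`,
`K = {x | Od (LA (qn x) k l) (fun c => valA (fL x) (qn x) k l c = true)}`.  PAB with AMC for
`G x _ _ u c = fL x u c` (LMC) and a polynomial bound of `LA` from `qn x ≤ |x|`, `qw x ≤ |x|` (for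
instance replace `n`, `w` by `|x|` everywhere in `LA n (wl n w + 1) (n * n * (wl n w + 1))`, which is
monotone; `LAT.lead x ≤ x.length` as it is the length of a `takeWhile`).  For
`x = encL n w Q Q'` (WRL: `qn x = n`, `wx x = wl n w`) the predicate `fL x` satisfies the hypothesis of
INH for `S = SL w Q Q'`: for words `u`, `c` of length `n * n * (wl n w + 1)`, by CHZ `MulOk` says
that `u = encZ U`, `c = encZ U⁻¹` for some `U` with `RgU`, and then `nz u i j = U i j` (ENZ (2)), so the second condition is `U Q Uᵀ = Q'`.  So by INH, HPL and ACT: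
`x ∈ K` iff `WS` is nonempty iff `SL w Q Q'` is nonempty iff `IsoF Q Q'`. -/
def LifStmt : Prop := ∃ L : Set Word, InParityP L ∧
  ∀ (n w : ℕ) (Q Q' : Matrix (Fin n) (Fin n) ℤ), PosF Q → PosF Q' →
    (∀ i j, |Q i j| < 2 ^ w) → (∀ i j, |Q' i j| < 2 ^ w) → (encL n w Q Q' ∈ L ↔ IsoF Q Q')

/-! ## Heaps of integer matrices -/

open Classical in
/-- the predicate of the machine: `u` and `c` are the words of `U` and `U⁻¹`, and `V (x, u)` -/
noncomputable def fI (V : Word × Word → Bool) (n w : ℕ) (x u c : Word) : Bool :=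
  decide (MulOk n w u c) && V (x, u)

/-- **IZM** (easy-medium; uses nothing; adapt `Helper7_LAT/MCH.lean`, see LMC).  The predicate is
computed in polynomial time.

Proof.  `MulOk` as in LMC, `FPB.call2` for `V`, `FPN.poly`. -/
def IzmStmt : Prop := ∀ (V : Word × Word → Bool) (d w : Polynomial ℕ), PolyPair V →
  U5 (fun x _ _ u c => fI V (d.eval x.length) (w.eval x.length) x u c)

/-- **IZF** (easy-medium; uses ACT, AMC, PAB, CHZ, INH, IZM).  Heaps of integer matrices.

Proof.  As LIF with `n = d |x|`, `w = w |x|`, `S = intSols V d w x` (CHZ: for words `u`, `c` of the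
right length `MulOk` says `u = encZ U`, `c = encZ U⁻¹` for some `U` with `RgU w U`); the bound of `LA`
is the polynomial `LA` in `d`, `w`. -/
def IzfStmt : Prop := ∀ (V : Word × Word → Bool) (d w : Polynomial ℕ), PolyPair V →
  ∀ P : Set Word, (∀ x ∈ P, Heap (intSols V d w x)) →
    ∃ L, InParityP L ∧ ∀ x ∈ P, (x ∈ L ↔ (intSols V d w x).Nonempty)

end Pool.Agent.COSB
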